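import Mathlib
import Pool.Agent.Helper11.BD.Types

/-!
# Specialisations of a variety: definitions
-/

universe u v w u' w'

open CategoryTheory TensorProduct

namespace Pool.Agent.Helper11.BD

open Pool.Agent.Helper10 SmProjVar Pool.Agent.Helper11.Obs

/-- The variety `X'` over `k'` with the divisor `d'` is a specialisation of the variety `X` over `k`
with the divisor `d`, for two cohomology theories with the same field of coefficients: `φ` is an
isomorphism `H(X) → H'(X')` of graded algebras which commutes with the traces and maps the class of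
`d` to the class of `d'`, and for every cycle `z` on a power `X ^ b` there is a cycle `z'` on
`X' ^ b` of the same codimension with the same class, if we identify `H(X ^ b)` with `H'(X' ^ b)`
by means of `φ` and the Künneth formula: `⟨z', φ v₁ × … × φ v_b⟩ = ⟨z, v₁ × … × v_b⟩`.
(Example: `X` has good reduction `X'`.) -/
structure IsSpecialization {k : Type u} [Field k] {k' : Type u'} [Field k'] {K : Type v} [Field K]
    (W : CohomologyData.{u, v, w} k K) (W' : CohomologyData.{u', v, w'} k' K)
    (X : SmProjVar k) (d : X.Z 1) (X' : SmProjVar k') (d' : X'.Z 1) (φ : W.H X → W'.H X') :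
    Prop where
  dim_eq : X'.dim = X.dim
  bijective : Function.Bijective φ
  map_add : ∀ x y, φ (x + y) = φ x + φ y
  map_smul : ∀ (a : K) (x : W.H X), φ (a • x) = a • φ x
  map_one : φ 1 = 1
  map_mul : ∀ x y, φ (x * y) = φ x * φ y
  map_mem : ∀ (i : ℕ) (x : W.H X), x ∈ W.gr X i → φ x ∈ W'.gr X' i
  tr : ∀ x, W'.tr X' (φ x) = W.tr X x
  div : φ (W.cy X 1 d) = W'.cy X' 1 d'
  cycle : ∀ (b j : ℕ) (z : (cart X b).Z j), ∃ z' : (cart X' b).Z j, ∀ x : Fin b → W.H X,
    W'.pairing (cart X' b) (W'.cy (cart X' b) j z') (extProd W' 1 fun i => φ (x i)) =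
      W.pairing (cart X b) (W.cy (cart X b) j z) (extProd W 1 x)

end Pool.Agent.Helper11.BD
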