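import Mathlib
import Pool.Agent.Helper11.GN.Types
import Pool.Agent.Helper11.BD.Final

/-!
# Primitive decompositions
-/

universe u v w

open CategoryTheory Finset

namespace Pool.Agent.Helper11.BD

open Pool.Agent.Helper10 hiding IsAlgAut parityPart
open SmProjVar

variable {k : Type u} [Field k] {K : Type v} [Field K] [CharZero K]
  (W : WeilCohomology.{u, v, w} k K)

/-- `y 0, y 1, …` are the components of `x ∈ H^i(X)` in the primitive decomposition -/
structure IsLefDec (X : SmProjVar k) (d : X.Z 1) (i r : ℕ) (x : W.H X) (y : ℕ → W.H X) : Prop where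
  mem : ∀ j, 2 * j ≤ i → y j ∈ W.gr X (i - 2 * j)
  zero : ∀ j, i < 2 * j → y j = 0
  prim : ∀ j, W.lef X d (r + 2 * j + 1) (y j) = 0
  sum : x = ∑ j ∈ range (i + 1), W.lef X d j (y j)

end Pool.Agent.Helper11.BD
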