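import Mathlib
import Pool.Agent.Helper11.GN.Dec
import Pool.Agent.Helper11.BD.Final

/-!
# Primitive decompositions: uniqueness, and the components are given by correspondences
-/

universe u v w

open CategoryTheory Finset

namespace Pool.Agent.Helper11.BD

open Pool.Agent.Helper10 hiding IsAlgAut parityPart
open SmProjVar

variable {k : Type u} [Field k] {K : Type v} [Field K] [CharZero K]
  (W : WeilCohomology.{u, v, w} k K) {F : Subfield K} {X : SmProjVar k}

lemma lef_zero (d : X.Z 1) (r : ℕ) : W.lef X d r 0 = 0 := mul_zero _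

lemma lef_lef (d : X.Z 1) (r s : ℕ) (x : W.H X) :
    W.lef X d r (W.lef X d s x) = W.lef X d (r + s) x := by
  change W.cy X 1 d ^ r * (W.cy X 1 d ^ s * x) = W.cy X 1 d ^ (r + s) * x
  rw [pow_add, mul_assoc]

lemma lef_add (d : X.Z 1) (r : ℕ) (x y : W.H X) :
    W.lef X d r (x + y) = W.lef X d r x + W.lef X d r y := mul_add _ _ _

lemma lef_sub (d : X.Z 1) (r : ℕ) (x y : W.H X) :
    W.lef X d r (x - y) = W.lef X d r x - W.lef X d r y := mul_sub _ _ _

lemma lef_sum (d : X.Z 1) (r : ℕ) {ι : Type*} (s : Finset ι) (x : ι → W.H X) :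
    W.lef X d r (∑ i ∈ s, x i) = ∑ i ∈ s, W.lef X d r (x i) := mul_sum _ _ _

lemma lef_mem (d : X.Z 1) (r : ℕ) {s : ℕ} {x : W.H X} (hx : x ∈ W.gr X s) :
    W.lef X d r x ∈ W.gr X (s + 2 * r) := by
  have h1 : W.cy X 1 d ^ r ∈ W.gr X (r * (2 * 1)) := pow_gr W (W.cycleClasses.cy_mem X 1 d) r
  have h2 := mul_gr W h1 hx
  have h3 : r * (2 * 1) + s = s + 2 * r := by ring
  rwa [h3] at h2

lemma lef_eq_zero_of_le {d : X.Z 1} {r s : ℕ} {x : W.H X} (h : W.lef X d r x = 0) (hrs : r ≤ s) :
    W.lef X d s x = 0 := by
  obtain ⟨q, rfl⟩ : ∃ q, s = q + r := ⟨s - r, by omega⟩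
  rw [← lef_lef, h, lef_zero]

/-- L0a (helper49): uniqueness of the primitive decomposition -/
theorem lefDec_unique {d : X.Z 1} (hd : HardLefschetz W.toCohomologyData X d) {i r : ℕ}
    (hir : i + r = X.dim) {x : W.H X} {y y' : ℕ → W.H X} (h : IsLefDec W X d i r x y)
    (h' : IsLefDec W X d i r x y') : y = y' := by
  have hsum : ∑ j ∈ range (i + 1), W.lef X d j (y j - y' j) = 0 := by
    rw [sum_congr rfl fun j _ => lef_sub W d j (y j) (y' j), sum_sub_distrib, ← h.sum, ← h'.sum,
      sub_self]
  have key : ∀ n m, i < m + n → y m - y' m = 0 := by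
    intro n
    induction n with
    | zero =>
      intro m hm
      rw [h.zero m (by omega), h'.zero m (by omega), sub_self]
    | succ n ih =>
      intro m hm
      by_cases hmi : i < 2 * m
      · rw [h.zero m hmi, h'.zero m hmi, sub_self]
      have h1 := congrArg (W.lef X d (r + m)) hsum
      rw [lef_sum, lef_zero, sum_eq_single m] at h1
      · rw [lef_lef] at h1
        refine (hd (i - 2 * m) (r + m + m) (by omega)).1 _
          (Submodule.sub_mem _ (h.mem m (by omega)) (h'.mem m (by omega))) h1
      · intro j _ hj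
        rcases lt_or_gt_of_ne hj with hj | hj
        · rw [lef_lef, lef_sub, lef_eq_zero_of_le W (h.prim j) (by omega),
            lef_eq_zero_of_le W (h'.prim j) (by omega), sub_self]
        · rw [ih j (by omega), lef_zero, lef_zero]
      · intro hm'
        exact absurd (mem_range.mpr (by omega)) hm'
  funext m
  exact sub_eq_zero.mp (key (i + 1) m (by omega))

/-- L0b (helper49): the components are given by correspondences -/
theorem exists_lefDec {d : X.Z 1} (hd : HardLefschetz W.toCohomologyData X d)
    (hB : LefschetzStandard W.toCohomologyData F X d) {i r : ℕ} (hir : i + r = X.dim) :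
    ∃ lam : ℕ → W.H X → W.H X, (∀ j, IsMapOver W.toCohomologyData F X (lam j)) ∧
      ∀ x ∈ W.gr X i, IsLefDec W X d i r x fun j => lam j x := by
  induction i using Nat.strong_induction_on generalizing r with
  | h i ih =>
  rcases Nat.lt_or_ge i 2 with hi | hi
  · refine ⟨fun j x => if j = 0 then x else 0, fun j => ?_, fun x hx => ?_⟩
    · by_cases hj : j = 0
      · simp only [hj, if_true]
        exact Ro.isMapOver_id W X
      · simp only [hj, if_false]
        exact isMapOver_zero W
    · have e0 : ∀ j : ℕ, j ≠ 0 → (if j = 0 then x else 0) = 0 := fun j hj => if_neg hj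
      refine ⟨fun j hj => ?_, fun j hj => ?_, fun j => ?_, ?_⟩
      · have hj0 : j = 0 := by omega
        subst hj0
        simpa using hx
      · exact e0 j (by omega)
      · by_cases hj : j = 0
        · subst hj
          have h1 := lef_mem W d (r + 2 * 0 + 1) hx
          rw [(W.graded X).eq_bot _ (by omega), Submodule.mem_bot] at h1
          exact h1
        · exact (congrArg (W.lef X d (r + 2 * j + 1)) (e0 j hj)).trans (lef_zero W d _)
      · rw [sum_eq_single 0]
        · change x = W.cy X 1 d ^ 0 * x
          rw [pow_zero, one_mul]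
        · intro j _ hj
          exact (congrArg (W.lef X d j) (e0 j hj)).trans (lef_zero W d _)
        · intro h
          exact absurd (mem_range.mpr (by omega)) h
  · obtain ⟨i, rfl⟩ : ∃ i', i = i' + 2 := ⟨i - 2, by omega⟩
    obtain ⟨lam, hlam, hdec⟩ := ih i (by omega) (r := r + 2) (by omega)
    obtain ⟨u, hu, hu1⟩ := hB i (r + 2) (by omega)
    have hL : ∀ s, IsMapOver W.toCohomologyData F X fun x => W.lef X d s x := fun s =>
      isMapOver_mul W (pow_mem_cycleSpan W (cy_mem_cycleSpan W F X 1 d) s)
    have hv : IsMapOver W.toCohomologyData F X fun x => u (W.lef X d (r + 1) x) :=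
      Ro.isMapOver_comp W (hL (r + 1)) hu
    refine ⟨fun j => Nat.casesOn j (fun x => x - W.lef X d 1 (u (W.lef X d (r + 1) x)))
      fun j x => lam j (u (W.lef X d (r + 1) x)), fun j => ?_, fun x hx => ?_⟩
    · cases j with
      | zero => exact Ro.isMapOver_sub W (Ro.isMapOver_id W X) (Ro.isMapOver_comp W hv (hL 1))
      | succ j => exact Ro.isMapOver_comp W hv (hlam j)
    · obtain ⟨x1, hx1, hx1'⟩ := (hd i (r + 2) (by omega)).2 (W.lef X d (r + 1) x) (by
        have := lef_mem W d (r + 1) hx
        rwa [show i + 2 + 2 * (r + 1) = i + 2 * (r + 2) by ring] at this)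
      have hux : u (W.lef X d (r + 1) x) = x1 := by rw [← hx1', hu1 x1 hx1]
      have h1 := hdec x1 hx1
      refine ⟨fun j hj => ?_, fun j hj => ?_, fun j => ?_, ?_⟩
      · cases j with
        | zero =>
          change x - W.lef X d 1 (u (W.lef X d (r + 1) x)) ∈ _
          rw [hux]
          exact Submodule.sub_mem _ hx (lef_mem W d 1 hx1)
        | succ j =>
          change lam j (u (W.lef X d (r + 1) x)) ∈ _
          rw [hux, show i + 2 - 2 * (j + 1) = i - 2 * j by omega]
          exact h1.mem j (by omega)
      · cases j with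
        | zero => omega
        | succ j =>
          change lam j (u (W.lef X d (r + 1) x)) = 0
          rw [hux]
          exact h1.zero j (by omega)
      · cases j with
        | zero =>
          change W.lef X d (r + 2 * 0 + 1) (x - W.lef X d 1 (u (W.lef X d (r + 1) x))) = 0
          rw [hux, lef_sub, lef_lef, sub_eq_zero]
          exact hx1'.symm
        | succ j =>
          change W.lef X d (r + 2 * (j + 1) + 1) (lam j (u (W.lef X d (r + 1) x))) = 0
          rw [hux, show r + 2 * (j + 1) + 1 = r + 2 + 2 * j + 1 by ring]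
          exact h1.prim j
      · have h2 : ∑ j ∈ range (i + 2), W.lef X d (j + 1) (lam j x1) = W.lef X d 1 x1 := by
          conv_rhs => rw [h1.sum]
          rw [lef_sum, sum_range_succ, h1.zero (i + 1) (by omega), lef_zero, add_zero]
          refine sum_congr rfl fun j _ => ?_
          rw [lef_lef, add_comm 1 j]
        rw [sum_range_succ']
        change x = ∑ j ∈ range (i + 2), W.lef X d (j + 1) (lam j (u (W.lef X d (r + 1) x))) +
          W.lef X d 0 (x - W.lef X d 1 (u (W.lef X d (r + 1) x)))
        rw [hux, h2]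
        change x = W.lef X d 1 x1 + W.cy X 1 d ^ 0 * (x - W.lef X d 1 x1)
        rw [pow_zero, one_mul]
        abel

end Pool.Agent.Helper11.BD
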