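import Mathlib
import Pool.Agent.Helper11.GN.Dec
import Pool.Agent.Helper11.BD.Hodge

/-!
# Classes on a product which are orthogonal to themselves
-/

universe u v w

open CategoryTheory Finset

namespace Pool.Agent.Helper11.BD

open Pool.Agent.Helper10 hiding IsAlgAut parityPart
open SmProjVar
open Pool.Agent.Helper10.HD (ratModule exists_multiple)

variable {k : Type u} [Field k] {K : Type v} [Field K] [CharZero K]
  (W : WeilCohomology.{u, v, w} k K) {F : Subfield K} {X : SmProjVar k}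

lemma add_pow_mul_single {R : Type*} [Ring R] {D1 D2 β : R} (hc : Commute D1 D2)
    {s t : ℕ} (h1 : D1 ^ (s + 1) * β = 0) (h2 : D2 ^ (t + 1) * β = 0) :
    (D1 + D2) ^ (s + t) * β = ((s + t).choose s : R) * (D1 ^ s * (D2 ^ t * β)) ∧
      (D1 + D2) ^ (s + t + 1) * β = 0 := by
  have z1 : ∀ i j, s < i → D1 ^ i * D2 ^ j * β = 0 := by
    intro i j hi
    obtain ⟨q, rfl⟩ : ∃ q, i = q + (s + 1) := ⟨i - (s + 1), by omega⟩
    rw [(hc.pow_pow _ _).eq, mul_assoc, pow_add, mul_assoc, h1, mul_zero, mul_zero]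
  have z2 : ∀ i j, t < j → D1 ^ i * D2 ^ j * β = 0 := by
    intro i j hj
    obtain ⟨q, rfl⟩ : ∃ q, j = q + (t + 1) := ⟨j - (t + 1), by omega⟩
    rw [mul_assoc, pow_add, mul_assoc, h2, mul_zero, mul_zero]
  constructor
  · rw [hc.add_pow, sum_mul, sum_eq_single s]
    · rw [show s + t - s = t by omega, ← Nat.cast_comm, mul_assoc, mul_assoc]
    · intro i hi hne
      rw [← Nat.cast_comm, mul_assoc]
      rcases lt_or_gt_of_ne hne with h | h
      · rw [z2 i _ (by omega), mul_zero]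
      · rw [z1 i _ h, mul_zero]
    · intro h
      exact absurd (mem_range.mpr (by omega)) h
  · rw [hc.add_pow, sum_mul]
    refine sum_eq_zero fun i hi => ?_
    rw [← Nat.cast_comm, mul_assoc]
    rcases Nat.lt_or_ge s i with h | h
    · rw [z1 i _ h, mul_zero]
    · rw [z2 i _ (by omega), mul_zero]

attribute [local instance] ratModule

/-- a rational class which is primitive in both factors and orthogonal to itself vanishes -/
theorem eq_zero_of_hodgeType {Y : SmProjVar k} {e : Y.Z 1} (hH : W.HodgeType Y e)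
    {D1 D2 : W.H Y} (he : W.cy Y 1 e = D1 + D2) (hc : Commute D1 D2) {p s t : ℕ}
    (hp : 2 * p + (s + t) = Y.dim) {β : W.H Y}
    (hβ : β ∈ cycleSpan W.toCohomologyData (ratField K) Y) (hβp : β ∈ W.gr Y (2 * p))
    (h1 : D1 ^ (s + 1) * β = 0) (h2 : D2 ^ (t + 1) * β = 0)
    (h0 : W.trL Y (β * (D1 ^ s * (D2 ^ t * β))) = 0) : β = 0 := by
  by_contra hne
  obtain ⟨m, c, hm, hmc⟩ := exists_multiple W (mem_span_of_gr W (by omega) hβ hβp)
  have hmK : ((m : ℕ) : K) ≠ 0 := by exact_mod_cast hm.ne'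
  have hc' : W.cy Y p c = ((m : ℕ) : K) • β := by
    rw [← hmc]
    change (algebraMap ℚ K ((m : ℕ) : ℚ)) • β = _
    rw [map_natCast]
  obtain ⟨e1, e2⟩ := add_pow_mul_single hc h1 h2
  obtain ⟨i, hi, hi'⟩ := hH p (s + t) hp c (by
    change W.cy Y 1 e ^ (s + t + 1) * W.cy Y p c = 0
    rw [hc', mul_smul_comm, he, e2, smul_zero]) (by
    change W.cy Y p c ≠ 0
    rw [hc']
    exact smul_ne_zero hmK hne)
  have h3 : W.pairing Y (W.cy Y p c) (W.lef Y e (s + t) (W.cy Y p c)) = 0 := by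
    change W.trL Y (W.cy Y p c * (W.cy Y 1 e ^ (s + t) * W.cy Y p c)) = 0
    rw [hc', he, mul_smul_comm, e1, smul_mul_assoc, mul_smul_comm, map_smul, map_smul,
      ← nsmul_eq_mul, mul_smul_comm, map_nsmul, h0, smul_zero, smul_zero, smul_zero]
  rw [h3] at hi'
  have h4 : ((-1 : K) ^ p * (i : K)) ≠ 0 :=
    mul_ne_zero (pow_ne_zero p (neg_ne_zero.mpr one_ne_zero)) (by exact_mod_cast hi.ne')
  exact h4 hi'.symm

end Pool.Agent.Helper11.BD
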