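import Mathlib
import Pool.Agent.Helper11.GN.L0
import Pool.Agent.Helper11.GN.L1a

/-!
# Rational classes on `X × X` with one slot in an isotropic subspace
-/

universe u v w

open CategoryTheory Finset

namespace Pool.Agent.Helper11.BD

open Pool.Agent.Helper10 hiding IsAlgAut parityPart
open SmProjVar

variable {k : Type u} [Field k] {K : Type v} [Field K] [CharZero K]
  (W : WeilCohomology.{u, v, w} k K) {F : Subfield K} {X Y : SmProjVar k}

/-- the span of the classes `g × x`, for `g ∈ G` and `x ∈ P` -/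
noncomputable def slotSpan (G : Submodule K (W.H X)) (P : Submodule K (W.H Y)) :
    Submodule K (W.H (X.prod Y)) :=
  Submodule.span K {t | ∃ g ∈ G, ∃ x ∈ P, t = W.pull (fst X Y) g * W.pull (snd X Y) x}

lemma slotSpan_induction {G : Submodule K (W.H X)} {P : Submodule K (W.H Y)}
    {p : W.H (X.prod Y) → Prop} (hext : ∀ g ∈ G, ∀ x ∈ P,
      p (W.pull (fst X Y) g * W.pull (snd X Y) x)) (hzero : p 0)
    (hadd : ∀ x y, p x → p y → p (x + y)) (hsmul : ∀ (a : K) x, p x → p (a • x))
    {z : W.H (X.prod Y)} (hz : z ∈ slotSpan W G P) : p z := by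
  unfold slotSpan at hz
  induction hz using Submodule.span_induction with
  | mem z hz =>
    obtain ⟨g, hg, x, hx, rfl⟩ := hz
    exact hext g hg x hx
  | zero => exact hzero
  | add x y _ _ hx hy => exact hadd x y hx hy
  | smul a x _ hx => exact hsmul a x hx

/-- the trace of a product of classes on a product -/
lemma trL_prod_gr {a a' : W.H X} {b b' : W.H Y} {s t : ℕ} (ha' : a' ∈ W.gr X s)
    (hb : b ∈ W.gr Y t) :
    W.trL (X.prod Y) (W.pull (fst X Y) a * W.pull (snd X Y) b *
      (W.pull (fst X Y) a' * W.pull (snd X Y) b')) =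
      (-1 : K) ^ (t * s) * (W.trL X (a * a') * W.trL Y (b * b')) := by
  have h1 := (W.graded (X.prod Y)).comm t s _ _ (pull_gr W (snd X Y) hb)
    (pull_gr W (fst X Y) ha')
  have h2 : W.pull (fst X Y) a * W.pull (snd X Y) b *
      (W.pull (fst X Y) a' * W.pull (snd X Y) b') =
      (-1 : K) ^ (t * s) • (W.pull (fst X Y) (a * a') * W.pull (snd X Y) (b * b')) := by
    have e1 : W.pull (fst X Y) (a * a') = W.pull (fst X Y) a * W.pull (fst X Y) a' :=
      map_mul (W.pullA (fst X Y)) a a'
    have e2 : W.pull (snd X Y) (b * b') = W.pull (snd X Y) b * W.pull (snd X Y) b' :=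
      map_mul (W.pullA (snd X Y)) b b'
    rw [e1, e2, mul_assoc, ← mul_assoc (W.pull (snd X Y) b), h1, smul_mul_assoc, mul_smul_comm]
    congr 1
    noncomm_ring
  rw [h2, map_smul, smul_eq_mul]
  congr 1
  exact W.tr_prod X Y (a * a') (b * b')

/-- rational classes of odd degree vanish -/
lemma eq_zero_of_odd {Z : SmProjVar k} {β : W.H Z}
    (hβ : β ∈ cycleSpan W.toCohomologyData (ratField K) Z) {c : ℕ} (hc : Odd c)
    (hβc : β ∈ W.gr Z c) : β = 0 := by
  obtain ⟨y, hy, hxy⟩ := exists_components W hβ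
  by_cases hcd : c ≤ 2 * Z.dim
  · refine eq_zero_of_gr W (i := c) (j := 2 * Z.dim - c) (by omega) hβc fun w hw => ?_
    rw [hxy, sum_mul, map_sum]
    refine sum_eq_zero fun j _ => ?_
    refine trL_gr W (span_le_gr W (hy j)) hw ?_
    obtain ⟨q, rfl⟩ := hc
    omega
  · rw [(W.graded Z).eq_bot c (by omega), Submodule.mem_bot] at hβc
    exact hβc

/-- the product of two correspondences, as a linear map -/
lemma exists_prod_map {u : W.H X → W.H X} {u' : W.H Y → W.H Y}
    (hu : IsMapOver W.toCohomologyData F X u) (hu' : IsMapOver W.toCohomologyData F Y u') :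
    ∃ t : W.H (X.prod Y) →ₗ[K] W.H (X.prod Y),
      (∀ z ∈ cycleSpan W.toCohomologyData F (X.prod Y),
        t z ∈ cycleSpan W.toCohomologyData F (X.prod Y)) ∧
      ∀ x y, t (W.pull (fst X Y) x * W.pull (snd X Y) y) =
        W.pull (fst X Y) (u x) * W.pull (snd X Y) (u' y) := by
  obtain ⟨t, ht, ht'⟩ := isMapOver_ext W hu hu'
  obtain ⟨T, hT⟩ := Ro.IsMapOver.exists_linear W ht
  exact ⟨T, fun z hz => by rw [hT]; exact IsMapOver.mem_cycleSpan W ht hz,
    fun x y => by rw [hT, ht']⟩

lemma pull_lef {Z : SmProjVar k} (f : Z.toOver ⟶ X.toOver) (d : X.Z 1) (r : ℕ) (x : W.H X) :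
    W.pull f (W.lef X d r x) = W.pull f (W.cy X 1 d) ^ r * W.pull f x := by
  change W.pullA f (W.cy X 1 d ^ r * x) = W.pullA f (W.cy X 1 d) ^ r * W.pullA f x
  rw [map_mul, map_pow]

/-- divisor classes commute with all classes -/
lemma pull_cy_pow_comm {Z : SmProjVar k} (f : Z.toOver ⟶ X.toOver) (d : X.Z 1) (r : ℕ)
    (x : W.H Z) : W.pull f (W.cy X 1 d) ^ r * x = x * W.pull f (W.cy X 1 d) ^ r := by
  have h1 : W.pull f (W.cy X 1 d) ^ r ∈ cycleSpan W.toCohomologyData (ratField K) Z :=
    pow_mem_cycleSpan W (pull_mem_cycleSpan W f (cy_mem_cycleSpan W _ X 1 d)) r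
  exact W.evK_comm Z _ x (W.algClasses_le_evK _ (cycleSpan_le W _ h1))

lemma ext_lef (d : X.Z 1) (d' : Y.Z 1) (r s : ℕ) (x : W.H X) (y : W.H Y) :
    W.pull (fst X Y) (W.lef X d r x) * W.pull (snd X Y) (W.lef Y d' s y) =
      W.pull (fst X Y) (W.cy X 1 d) ^ r * (W.pull (snd X Y) (W.cy Y 1 d') ^ s *
        (W.pull (fst X Y) x * W.pull (snd X Y) y)) := by
  rw [pull_lef, pull_lef, pull_cy_pow_comm W (snd X Y) d' s (W.pull (fst X Y) x *
    W.pull (snd X Y) y), mul_assoc, mul_assoc, pull_cy_pow_comm W (snd X Y) d' s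
    (W.pull (snd X Y) y)]

/-- the components of a rational class with one slot in an isotropic subspace -/
lemma component_eq_zero {d : X.Z 1} {e : (X.prod X).Z 1}
    (he : W.cy (X.prod X) 1 e = W.pull (fst X X) (W.cy X 1 d) + W.pull (snd X X) (W.cy X 1 d))
    (hH : W.HodgeType (X.prod X) e) {a s b t : ℕ} (has : a + s = X.dim) (hbt : b + t = X.dim)
    {P Q : Submodule K (W.H X)} (hP : P ≤ W.gr X a) (hQ : Q ≤ W.gr X b)
    (hPs : ∀ x ∈ P, W.lef X d (s + 1) x = 0) (hQt : ∀ x ∈ Q, W.lef X d (t + 1) x = 0)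
    (hiso : ∀ x ∈ P, ∀ y ∈ P, W.pairing X x (W.lef X d s y) = 0)
    {β : W.H (X.prod X)} (hβ : β ∈ cycleSpan W.toCohomologyData (ratField K) (X.prod X))
    (hβG : β ∈ slotSpan W P Q) : β = 0 := by
  have hdeg : β ∈ W.gr (X.prod X) (a + b) := by
    refine slotSpan_induction W (p := fun z => z ∈ W.gr (X.prod X) (a + b))
      (fun g hg x hx => mul_gr W (pull_gr W _ (hP hg)) (pull_gr W _ (hQ hx)))
      (Submodule.zero_mem _) (fun x y hx hy => Submodule.add_mem _ hx hy)
      (fun c x hx => Submodule.smul_mem _ c hx) hβG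
  rcases Nat.even_or_odd (a + b) with hab | hab
  swap
  · exact eq_zero_of_odd W hβ hab hdeg
  obtain ⟨p, hp⟩ := hab
  have hdim : (X.prod X).dim = X.dim + X.dim := rfl
  have h1 : W.pull (fst X X) (W.cy X 1 d) ^ (s + 1) * β = 0 := by
    refine slotSpan_induction W (p := fun z => W.pull (fst X X) (W.cy X 1 d) ^ (s + 1) * z = 0)
      (fun g hg x hx => ?_) (mul_zero _) (fun x y hx hy => by rw [mul_add, hx, hy, add_zero])
      (fun c x hx => by rw [mul_smul_comm, hx, smul_zero]) hβG
    rw [← mul_assoc, ← pull_lef, hPs g hg]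
    change W.pullA (fst X X) 0 * _ = 0
    rw [map_zero, zero_mul]
  have h2 : W.pull (snd X X) (W.cy X 1 d) ^ (t + 1) * β = 0 := by
    refine slotSpan_induction W (p := fun z => W.pull (snd X X) (W.cy X 1 d) ^ (t + 1) * z = 0)
      (fun g hg x hx => ?_) (mul_zero _) (fun x y hx hy => by rw [mul_add, hx, hy, add_zero])
      (fun c x hx => by rw [mul_smul_comm, hx, smul_zero]) hβG
    rw [pull_cy_pow_comm, mul_assoc, ← pull_cy_pow_comm, ← pull_lef, hQt x hx]
    change _ * W.pullA (snd X X) 0 = 0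
    rw [map_zero, mul_zero]
  refine eq_zero_of_hodgeType W hH he ?_ (p := p) (s := s) (t := t) (by omega) hβ
    (by rw [two_mul, ← hp]; exact hdeg) h1 h2 ?_
  · have := pull_cy_pow_comm W (fst X X) d 1 (W.pull (snd X X) (W.cy X 1 d))
    rw [pow_one] at this
    exact this
  -- isotropy
  have key : ∀ g ∈ P, ∀ x ∈ Q, W.trL (X.prod X) (W.pull (fst X X) g * W.pull (snd X X) x *
      (W.pull (fst X X) (W.cy X 1 d) ^ s * (W.pull (snd X X) (W.cy X 1 d) ^ t * β))) = 0 := by
    intro g hg x hx
    refine slotSpan_induction W (p := fun z => W.trL (X.prod X) (W.pull (fst X X) g *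
      W.pull (snd X X) x * (W.pull (fst X X) (W.cy X 1 d) ^ s *
        (W.pull (snd X X) (W.cy X 1 d) ^ t * z))) = 0) (fun g' hg' x' hx' => ?_)
      (by rw [mul_zero, mul_zero, mul_zero, map_zero])
      (fun x y hx hy => by rw [mul_add, mul_add, mul_add, map_add, hx, hy, add_zero])
      (fun c x hx => by rw [mul_smul_comm, mul_smul_comm, mul_smul_comm, map_smul, hx, smul_zero])
      hβG
    rw [← ext_lef, trL_prod_gr W (lef_mem W d s (hP hg')) (hQ hx)]
    have h3 : W.trL X (g * W.lef X d s g') = 0 := hiso g hg g' hg'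
    rw [h3, zero_mul, mul_zero]
  refine slotSpan_induction W (p := fun z => W.trL (X.prod X) (z *
      (W.pull (fst X X) (W.cy X 1 d) ^ s * (W.pull (snd X X) (W.cy X 1 d) ^ t * β))) = 0)
    key (by rw [zero_mul, map_zero])
    (fun x y hx hy => by rw [add_mul, map_add, hx, hy, add_zero])
    (fun c x hx => by rw [smul_mul_assoc, map_smul, hx, smul_zero]) hβG

/-- the case of one degree `m ≤ dim X` of the second slot -/
lemma eq_zero_of_degree {d : X.Z 1} (hd : HardLefschetz W.toCohomologyData X d)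
    (hB : LefschetzStandard W.toCohomologyData (ratField K) X d) {e : (X.prod X).Z 1}
    (he : W.cy (X.prod X) 1 e = W.pull (fst X X) (W.cy X 1 d) + W.pull (snd X X) (W.cy X 1 d))
    (hH : W.HodgeType (X.prod X) e) {i r : ℕ} (hir : i + r = X.dim) {G : Submodule K (W.H X)}
    (hGi : G ≤ W.gr X i) (hiso : ∀ x ∈ G, ∀ y ∈ G, W.pairing X x (W.lef X d r y) = 0)
    (hst : ∀ x ∈ G, ∃ y : ℕ → W.H X, IsLefDec W X d i r x y ∧ ∀ j, W.lef X d j (y j) ∈ G)
    {m t : ℕ} (hmt : m + t = X.dim) {γ : W.H (X.prod X)}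
    (hγ : γ ∈ cycleSpan W.toCohomologyData (ratField K) (X.prod X))
    (hγG : γ ∈ slotSpan W G (W.gr X m)) : γ = 0 := by
  obtain ⟨lam, hlam, hdec⟩ := exists_lefDec W hd hB hir
  obtain ⟨lam', hlam', hdec'⟩ := exists_lefDec W hd hB hmt
  choose T hT1 hT2 using fun j j' => exists_prod_map W (hlam j) (hlam' j')
  have hG : ∀ g ∈ G, ∀ j, W.lef X d j (lam j g) ∈ G := by
    intro g hg j
    obtain ⟨y, hy, hy'⟩ := hst g hg
    have := lefDec_unique W hd hir hy (hdec g (hGi hg))
    have h1 : y j = lam j g := congrFun this j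
    rw [← h1]
    exact hy' j
  -- the components vanish
  have hβ : ∀ j j', T j j' γ = 0 := by
    intro j j'
    by_cases hj : i < 2 * j
    · refine slotSpan_induction W (p := fun z => T j j' z = 0) (fun g hg x hx => ?_) (map_zero _)
        (fun x y hx hy => by rw [map_add, hx, hy, add_zero])
        (fun c x hx => by rw [map_smul, hx, smul_zero]) hγG
      have h1 : lam j g = 0 := (hdec g (hGi hg)).zero j hj
      rw [hT2, h1, pull_zero', zero_mul]
    by_cases hj' : m < 2 * j'
    · refine slotSpan_induction W (p := fun z => T j j' z = 0) (fun g hg x hx => ?_) (map_zero _)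
        (fun x y hx hy => by rw [map_add, hx, hy, add_zero])
        (fun c x hx => by rw [map_smul, hx, smul_zero]) hγG
      have h1 : lam' j' x = 0 := (hdec' x hx).zero j' hj'
      rw [hT2, h1, pull_zero', mul_zero]
    let P : Submodule K (W.H X) := W.gr X (i - 2 * j) ⊓
      (LinearMap.ker (LinearMap.mulLeft K (W.cy X 1 d ^ (r + 2 * j + 1))) ⊓
        G.comap (LinearMap.mulLeft K (W.cy X 1 d ^ j)))
    let Q : Submodule K (W.H X) := W.gr X (m - 2 * j') ⊓
      LinearMap.ker (LinearMap.mulLeft K (W.cy X 1 d ^ (t + 2 * j' + 1)))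
    refine component_eq_zero W he hH (a := i - 2 * j) (s := r + 2 * j) (b := m - 2 * j')
      (t := t + 2 * j') (by omega) (by omega) (P := P) (Q := Q) inf_le_left inf_le_left
      (fun x hx => hx.2.1) (fun x hx => hx.2) (fun x hx y hy => ?_) (hT1 j j' γ hγ) ?_
    · have h1 := hiso _ hx.2.2 _ hy.2.2
      have h2 : W.pairing X (W.cy X 1 d ^ j * x) (W.cy X 1 d ^ r * (W.cy X 1 d ^ j * y)) = 0 := h1
      have h3 : W.cy X 1 d ^ j * x * (W.cy X 1 d ^ r * (W.cy X 1 d ^ j * y)) =
          x * (W.cy X 1 d ^ (r + 2 * j) * y) := by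
        have h4 : W.cy X 1 d ^ j * x = x * W.cy X 1 d ^ j := W.evK_comm X _ x
          (W.algClasses_le_evK _ (cycleSpan_le W _ (pow_mem_cycleSpan (F := ratField K) W
            (cy_mem_cycleSpan W _ X 1 d) j)))
        rw [h4, show r + 2 * j = j + (r + j) by ring, pow_add, pow_add]
        noncomm_ring
      change W.tr X (x * (W.cy X 1 d ^ (r + 2 * j) * y)) = 0
      rw [← h3]
      exact h2
    · refine slotSpan_induction W (p := fun z => T j j' z ∈ slotSpan W P Q)
        (fun g hg x hx => ?_) (by rw [map_zero]; exact Submodule.zero_mem _)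
        (fun x y hx hy => by rw [map_add]; exact Submodule.add_mem _ hx hy)
        (fun c x hx => by rw [map_smul]; exact Submodule.smul_mem _ c hx) hγG
      rw [hT2]
      refine Submodule.subset_span ⟨_, ⟨(hdec g (hGi hg)).mem j (by omega),
        (hdec g (hGi hg)).prim j, hG g hg j⟩, _, ⟨(hdec' x hx).mem j' (by omega),
        (hdec' x hx).prim j'⟩, rfl⟩
  -- the class is determined by its components
  have hsum : γ = ∑ j ∈ range (i + 1), ∑ j' ∈ range (m + 1),
      W.pull (fst X X) (W.cy X 1 d) ^ j * (W.pull (snd X X) (W.cy X 1 d) ^ j' * T j j' γ) := by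
    refine slotSpan_induction W (p := fun z => z = ∑ j ∈ range (i + 1), ∑ j' ∈ range (m + 1),
      W.pull (fst X X) (W.cy X 1 d) ^ j * (W.pull (snd X X) (W.cy X 1 d) ^ j' * T j j' z))
      (fun g hg x hx => ?_) ?_ (fun x y hx hy => ?_) (fun c x hx => ?_) hγG
    · conv_lhs => rw [(hdec g (hGi hg)).sum, (hdec' x hx).sum]
      rw [pull_sum', pull_sum', sum_mul]
      refine sum_congr rfl fun j _ => ?_
      rw [mul_sum]
      refine sum_congr rfl fun j' _ => ?_
      rw [hT2]
      exact ext_lef W d d j j' _ _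
    · simp only [map_zero, mul_zero, sum_const_zero]
    · conv_lhs => rw [hx, hy]
      simp only [map_add, mul_add, sum_add_distrib]
    · conv_lhs => rw [hx]
      simp only [map_smul, mul_smul_comm, smul_sum]
  rw [hsum]
  exact sum_eq_zero fun j _ => sum_eq_zero fun j' _ => by rw [hβ, mul_zero, mul_zero]

/-- L1 (helper49): a rational class on `X × X` with one slot in a stable isotropic subspace -/
theorem eq_zero_of_isotropic_slot {d : X.Z 1} (hd : HardLefschetz W.toCohomologyData X d)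
    (hB : LefschetzStandard W.toCohomologyData (ratField K) X d) {e : (X.prod X).Z 1}
    (he : W.cy (X.prod X) 1 e = W.pull (fst X X) (W.cy X 1 d) + W.pull (snd X X) (W.cy X 1 d))
    (hH : W.HodgeType (X.prod X) e) {i r : ℕ} (hir : i + r = X.dim) {G : Submodule K (W.H X)}
    (hGi : G ≤ W.gr X i) (hiso : ∀ x ∈ G, ∀ y ∈ G, W.pairing X x (W.lef X d r y) = 0)
    (hst : ∀ x ∈ G, ∃ y : ℕ → W.H X, IsLefDec W X d i r x y ∧ ∀ j, W.lef X d j (y j) ∈ G)
    {γ : W.H (X.prod X)} (hγ : γ ∈ cycleSpan W.toCohomologyData (ratField K) (X.prod X))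
    (hγG : γ ∈ Submodule.span K {t | ∃ g ∈ G, ∃ x, t = W.pull (fst X X) g * W.pull (snd X X) x}) :
    γ = 0 := by
  have hγ' : γ ∈ slotSpan W G (⊤ : Submodule K (W.H X)) := by
    refine Submodule.span_mono ?_ hγG
    rintro _ ⟨g, hg, x, rfl⟩
    exact ⟨g, hg, x, Submodule.mem_top, rfl⟩
  obtain ⟨π, hπ⟩ := exists_projs W (exists_proj_of_standard W hB)
  choose T hT1 hT2 using fun j => exists_prod_map W (Ro.isMapOver_id W (F := ratField K) X)
    (hπ.map j)
  have hmem : ∀ m : Fin (2 * X.dim + 1), T m γ ∈ slotSpan W G (W.gr X m) := by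
    intro m
    refine slotSpan_induction W (p := fun z => T m z ∈ slotSpan W G (W.gr X m))
      (fun g hg x _ => ?_) (by rw [map_zero]; exact Submodule.zero_mem _)
      (fun x y hx hy => by rw [map_add]; exact Submodule.add_mem _ hx hy)
      (fun c x hx => by rw [map_smul]; exact Submodule.smul_mem _ c hx) hγ'
    rw [hT2]
    exact Submodule.subset_span ⟨g, hg, _, hπ.mem m x, rfl⟩
  have hzero : ∀ m : Fin (2 * X.dim + 1), T m γ = 0 := by
    intro m
    by_cases hm : (m : ℕ) ≤ X.dim
    · exact eq_zero_of_degree W hd hB he hH hir hGi hiso hst (m := m) (t := X.dim - m) (by omega)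
        (hT1 m γ hγ) (hmem m)
    · have hm2 := m.2
      obtain ⟨u, hu, hu1⟩ := hB (2 * X.dim - m) (m - X.dim) (by omega)
      obtain ⟨U, hU1, hU2⟩ := exists_prod_map W (Ro.isMapOver_id W (F := ratField K) X) hu
      have hinv : ∀ x ∈ W.gr X m, u x ∈ W.gr X (2 * X.dim - m) ∧
          W.lef X d (m - X.dim) (u x) = x := by
        intro x hx
        obtain ⟨y, hy, rfl⟩ := (hd (2 * X.dim - m) (m - X.dim) (by omega)).2 x (by
          rwa [show 2 * X.dim - (m : ℕ) + 2 * (m - X.dim) = m by omega])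
        rw [hu1 y hy]
        exact ⟨hy, rfl⟩
      have h1 : U (T m γ) = 0 := by
        refine eq_zero_of_degree W hd hB he hH hir hGi hiso hst (m := 2 * X.dim - m)
          (t := m - X.dim) (by omega) (hU1 _ (hT1 m γ hγ)) ?_
        refine slotSpan_induction W (p := fun z => U z ∈ slotSpan W G (W.gr X (2 * X.dim - m)))
          (fun g hg x hx => ?_) (by rw [map_zero]; exact Submodule.zero_mem _)
          (fun x y hx hy => by rw [map_add]; exact Submodule.add_mem _ hx hy)
          (fun c x hx => by rw [map_smul]; exact Submodule.smul_mem _ c hx) (hmem m)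
        rw [hU2]
        exact Submodule.subset_span ⟨g, hg, _, (hinv x hx).1, rfl⟩
      have h2 : T m γ = W.pull (snd X X) (W.cy X 1 d) ^ ((m : ℕ) - X.dim) * U (T m γ) := by
        refine slotSpan_induction W
          (p := fun z => z = W.pull (snd X X) (W.cy X 1 d) ^ ((m : ℕ) - X.dim) * U z)
          (fun g hg x hx => ?_) (by rw [map_zero, mul_zero])
          (fun x y hx hy => by rw [map_add, mul_add, ← hx, ← hy])
          (fun c x hx => by rw [map_smul, mul_smul_comm, ← hx]) (hmem m)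
        rw [hU2, pull_cy_pow_comm, mul_assoc, ← pull_cy_pow_comm, ← pull_lef, (hinv x hx).2]
      rw [h2, h1, mul_zero]
  have hsum : γ = ∑ m, T m γ := by
    refine slotSpan_induction W (p := fun z => z = ∑ m, T m z) (fun g hg x _ => ?_)
      (by simp only [map_zero, sum_const_zero])
      (fun x y hx hy => by
        conv_lhs => rw [hx, hy]
        simp only [map_add, sum_add_distrib])
      (fun c x hx => by
        conv_lhs => rw [hx]
        simp only [map_smul, smul_sum]) hγ'
    simp only [hT2]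
    rw [← mul_sum, ← pull_sum', hπ.sum]
  rw [hsum]
  exact sum_eq_zero fun m _ => hzero m

end Pool.Agent.Helper11.BD
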