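import Mathlib
import Pool.Agent.Helper11.GN.Dec
import Pool.Agent.Helper11.BD.Final

/-!
# Slots of classes on products
-/

universe u v w

open CategoryTheory Finset

namespace Pool.Agent.Helper11.BD

open Pool.Agent.Helper10 hiding IsAlgAut parityPart
open SmProjVar
open Pool.Agent.Helper11.Obs (extProd wordClass prodVar prodFst prodProj IsNumTrivial)

variable {k : Type u} [Field k] {K : Type v} [Field K] [CharZero K]
  (W : WeilCohomology.{u, v, w} k K) {F : Subfield K} {X : SmProjVar k}

/-- every linear form on cohomology is `x ↦ ∫ x v` -/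
lemma exists_right_rep {B : SmProjVar k} (f : Module.Dual K (W.H B)) :
    ∃ v, ∀ x, W.trL B (x * v) = f x := by
  have hfin : Module.Finite K (W.H B) := (W.graded B).finite
  let φ : W.H B →ₗ[K] Module.Dual K (W.H B) :=
    LinearMap.mk₂ K (fun x y => W.trL B (x * y))
      (fun a b c => by rw [add_mul, map_add]) (fun a b c => by rw [smul_mul_assoc, map_smul])
      (fun a b c => by rw [mul_add, map_add]) (fun a b c => by rw [mul_smul_comm, map_smul])
  have hinj : Function.Injective φ := by
    rw [injective_iff_map_eq_zero]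
    intro x hx
    exact (W.trace B).nondegenerate x fun y => LinearMap.congr_fun hx y
  let e : W.H B ≃ₗ[K] Module.Dual K (W.H B) :=
    LinearEquiv.ofInjectiveOfFinrankEq φ hinj (Subspace.dual_finrank_eq).symm
  have he : ∀ x, e x = φ x := fun x => rfl
  refine ⟨(Module.evalEquiv K (W.H B)).symm (f ∘ₗ e.symm.toLinearMap), fun x => ?_⟩
  have h1 := Module.apply_evalEquiv_symm_apply K (W.H B) (e x) (f ∘ₗ e.symm.toLinearMap)
  rw [LinearMap.comp_apply, LinearEquiv.coe_coe, LinearEquiv.symm_apply_apply] at h1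
  exact h1

/-- double orthogonal -/
lemma mem_of_orth {B : SmProjVar k} {G : Submodule K (W.H B)} {x : W.H B}
    (h : ∀ v, (∀ g ∈ G, W.trL B (g * v) = 0) → W.trL B (x * v) = 0) : x ∈ G := by
  by_contra hx
  obtain ⟨f, hf, hG⟩ := Submodule.exists_dual_map_eq_bot_of_notMem hx inferInstance
  obtain ⟨v, hv⟩ := exists_right_rep W f
  refine hf ?_
  rw [← hv]
  refine h v fun g hg => ?_
  rw [hv]
  have h1 : f g ∈ G.map f := Submodule.mem_map_of_mem hg
  rw [hG] at h1
  exact (Submodule.mem_bot K).mp h1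

/-- exchanging the slots of a product of homogeneous classes -/
lemma pull_swap {A B : SmProjVar k} {i j : ℕ} {a : W.H A} {b : W.H B} (ha : a ∈ W.gr A i)
    (hb : b ∈ W.gr B j) : W.pull (snd A B) b * W.pull (fst A B) a =
      (-1 : K) ^ (j * i) • (W.pull (fst A B) a * W.pull (snd A B) b) :=
  (W.graded _).comm j i _ _ (pull_gr W _ hb) (pull_gr W _ ha)

lemma trL_snd_fst_snd {A B : SmProjVar k} (b : W.H B) (c : W.H A) (v : W.H B) :
    W.trL (A.prod B) (W.pull (snd A B) b * W.pull (fst A B) c * W.pull (snd A B) v) =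
      W.trL A c * W.trL B (b * v) := by
  refine W.gr_induction A (p := fun c => W.trL (A.prod B)
    (W.pull (snd A B) b * W.pull (fst A B) c * W.pull (snd A B) v) =
      W.trL A c * W.trL B (b * v)) (fun i c hc => ?_) ?_ ?_ c
  · refine W.gr_induction B (p := fun b => W.trL (A.prod B)
      (W.pull (snd A B) b * W.pull (fst A B) c * W.pull (snd A B) v) =
      W.trL A c * W.trL B (b * v)) (fun j b hb => ?_) ?_ ?_ b
    · have h1 : W.pull (snd A B) b * W.pull (snd A B) v = W.pull (snd A B) (b * v) :=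
        ((W.pullA (snd A B)).map_mul b v).symm
      have h2 : W.trL (A.prod B) (W.pull (fst A B) c * W.pull (snd A B) (b * v)) =
          W.trL A c * W.trL B (b * v) := W.tr_prod A B c (b * v)
      rw [pull_swap W hc hb, smul_mul_assoc, map_smul, mul_assoc, h1, h2, smul_eq_mul]
      by_cases hi : i = 2 * A.dim
      · rw [hi, mul_comm j, mul_assoc, (even_two_mul _).neg_one_pow, one_mul]
      · have h3 : W.trL A c = 0 := W.tr_eq_zero_of_gr A hi hc
        rw [h3, zero_mul, mul_zero]
    · have h1 : W.pull (snd A B) 0 = 0 := map_zero (W.pullA (snd A B))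
      rw [h1, zero_mul, zero_mul, zero_mul, map_zero, map_zero, mul_zero]
    · intro x y hx hy
      have h1 : W.pull (snd A B) (x + y) = W.pull (snd A B) x + W.pull (snd A B) y :=
        map_add (W.pullA (snd A B)) x y
      rw [h1, add_mul, add_mul, map_add, hx, hy, add_mul, map_add, mul_add]
  · have h1 : W.pull (fst A B) 0 = 0 := map_zero (W.pullA (fst A B))
    rw [h1, mul_zero, zero_mul, map_zero, map_zero, zero_mul]
  · intro x y hx hy
    have h1 : W.pull (fst A B) (x + y) = W.pull (fst A B) x + W.pull (fst A B) y :=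
      map_add (W.pullA (fst A B)) x y
    rw [h1, mul_add, add_mul, map_add, hx, hy, map_add, add_mul]

/-- expansion in the first slot -/
lemma exists_slot_expansion {A B : SmProjVar k} {r : ℕ} {a g : Fin r → W.H A}
    (hg : ∀ x : W.H A, x = ∑ s, W.trL A (x * a s) • g s) (z : W.H (A.prod B)) :
    ∃ b : Fin r → W.H B, z = ∑ s, W.pull (snd A B) (b s) * W.pull (fst A B) (g s) := by
  have hadd : ∀ z z' : W.H (A.prod B),
      (∃ b : Fin r → W.H B, z = ∑ s, W.pull (snd A B) (b s) * W.pull (fst A B) (g s)) →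
      (∃ b : Fin r → W.H B, z' = ∑ s, W.pull (snd A B) (b s) * W.pull (fst A B) (g s)) →
      ∃ b : Fin r → W.H B, z + z' = ∑ s, W.pull (snd A B) (b s) * W.pull (fst A B) (g s) := by
    rintro z z' ⟨b, rfl⟩ ⟨b', rfl⟩
    refine ⟨fun s => b s + b' s, ?_⟩
    rw [← sum_add_distrib]
    refine sum_congr rfl fun s _ => ?_
    have h1 : W.pull (snd A B) (b s + b' s) = W.pull (snd A B) (b s) + W.pull (snd A B) (b' s) :=
      map_add (W.pullA (snd A B)) _ _
    rw [h1, add_mul]
  have hsm : ∀ (c : K) (z : W.H (A.prod B)),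
      (∃ b : Fin r → W.H B, z = ∑ s, W.pull (snd A B) (b s) * W.pull (fst A B) (g s)) →
      ∃ b : Fin r → W.H B, c • z = ∑ s, W.pull (snd A B) (b s) * W.pull (fst A B) (g s) := by
    rintro c z ⟨b, rfl⟩
    refine ⟨fun s => c • b s, ?_⟩
    rw [smul_sum]
    refine sum_congr rfl fun s _ => ?_
    have h1 : W.pull (snd A B) (c • b s) = c • W.pull (snd A B) (b s) :=
      map_smul (W.pullA (snd A B)) _ _
    rw [h1, smul_mul_assoc]
  have hzero : ∃ b : Fin r → W.H B, (0 : W.H (A.prod B)) =
      ∑ s, W.pull (snd A B) (b s) * W.pull (fst A B) (g s) := by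
    refine ⟨fun _ => 0, ?_⟩
    have h1 : W.pull (snd A B) 0 = 0 := map_zero (W.pullA (snd A B))
    rw [sum_congr rfl fun s _ => by rw [h1, zero_mul], sum_const_zero]
  have hprod : ∀ (a' : W.H A) (b : W.H B), ∃ b' : Fin r → W.H B,
      W.pull (snd A B) b * W.pull (fst A B) a' =
        ∑ s, W.pull (snd A B) (b' s) * W.pull (fst A B) (g s) := by
    intro a' b
    refine ⟨fun s => W.trL A (a' * a s) • b, ?_⟩
    have h1 : W.pull (fst A B) a' = ∑ s, W.trL A (a' * a s) • W.pull (fst A B) (g s) := by
      conv_lhs => rw [hg a']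
      rw [pull_sum' W]
      refine sum_congr rfl fun s _ => ?_
      exact map_smul (W.pullA (fst A B)) _ _
    rw [h1, mul_sum]
    refine sum_congr rfl fun s _ => ?_
    have h2 : W.pull (snd A B) (W.trL A (a' * a s) • b) =
        W.trL A (a' * a s) • W.pull (snd A B) b := map_smul (W.pullA (snd A B)) _ _
    rw [h2, smul_mul_assoc, mul_smul_comm]
  refine prod_induction' W (fun a' b => ?_) hadd z
  refine W.gr_induction A (p := fun a' => ∃ b' : Fin r → W.H B,
    W.pull (fst A B) a' * W.pull (snd A B) b =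
      ∑ s, W.pull (snd A B) (b' s) * W.pull (fst A B) (g s)) (fun i a' ha' => ?_) ?_ ?_ a'
  · refine W.gr_induction B (p := fun b => ∃ b' : Fin r → W.H B,
      W.pull (fst A B) a' * W.pull (snd A B) b =
        ∑ s, W.pull (snd A B) (b' s) * W.pull (fst A B) (g s)) (fun j b hb => ?_) ?_ ?_ b
    · have h1 := pull_swap W ha' hb
      have h2 : W.pull (fst A B) a' * W.pull (snd A B) b =
          (-1 : K) ^ (j * i) • (W.pull (snd A B) b * W.pull (fst A B) a') := by
        rw [h1, smul_smul, ← mul_pow, neg_one_mul, neg_neg, one_pow, one_smul]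
      rw [h2]
      exact hsm _ _ (hprod a' b)
    · have h1 : W.pull (snd A B) 0 = 0 := map_zero (W.pullA (snd A B))
      rw [h1, mul_zero]
      exact hzero
    · intro x y hx hy
      have h1 : W.pull (snd A B) (x + y) = W.pull (snd A B) x + W.pull (snd A B) y :=
        map_add (W.pullA (snd A B)) x y
      rw [h1, mul_add]
      exact hadd _ _ hx hy
  · have h1 : W.pull (fst A B) 0 = 0 := map_zero (W.pullA (fst A B))
    rw [h1, zero_mul]
    exact hzero
  · intro x y hx hy
    have h1 : W.pull (fst A B) (x + y) = W.pull (fst A B) x + W.pull (fst A B) y :=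
      map_add (W.pullA (fst A B)) x y
    rw [h1, add_mul]
    exact hadd _ _ hx hy

/-- L2a: a class on `A × B` which is orthogonal to all `a × v` with `v` orthogonal to the subspace
`G` of `H ^ i(B)` is a sum of classes `a × g` with `g ∈ G` -/
theorem mem_span_slot {A B : SmProjVar k} {z : W.H (A.prod B)} {G : Submodule K (W.H B)} {i : ℕ}
    (hG : G ≤ W.gr B i)
    (h : ∀ (a : W.H A) (v : W.H B), (∀ g ∈ G, W.trL B (g * v) = 0) →
      W.trL (A.prod B) (z * (W.pull (fst A B) a * W.pull (snd A B) v)) = 0) :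
    z ∈ Submodule.span K {t | ∃ a, ∃ g ∈ G, t = W.pull (fst A B) a * W.pull (snd A B) g} := by
  classical
  have hfin : Module.Finite K (W.H A) := (W.graded A).finite
  let a := Module.finBasis K (W.H A)
  obtain ⟨g, hg⟩ := exists_dual_family W (X := A) (f := a) a.linearIndependent
  have hexp : ∀ x : W.H A, x = ∑ s, W.trL A (x * a s) • g s := by
    intro x
    rw [← sub_eq_zero]
    refine (W.trace A).nondegenerate _ fun y => ?_
    change W.trL A ((x - ∑ s, W.trL A (x * a s) • g s) * y) = 0
    have h1 : LinearMap.comp (W.trL A)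
        (LinearMap.mulLeft K (x - ∑ s, W.trL A (x * a s) • g s)) = 0 := by
      refine a.ext fun t => ?_
      rw [LinearMap.comp_apply, LinearMap.mulLeft_apply, LinearMap.zero_apply, sub_mul, map_sub,
        sum_mul, map_sum]
      have h2 : ∀ s, W.trL A (W.trL A (x * a s) • g s * a t) =
          if s = t then W.trL A (x * a s) else 0 := by
        intro s
        rw [smul_mul_assoc, map_smul, hg]
        split_ifs <;> simp
      rw [sum_congr rfl fun s _ => h2 s, sum_ite_eq' univ t, if_pos (mem_univ _), sub_self]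
    exact LinearMap.congr_fun h1 y
  obtain ⟨b, rfl⟩ := exists_slot_expansion W hexp z
  have hb : ∀ t, b t ∈ G := by
    intro t
    refine mem_of_orth W fun v hv => ?_
    have h1 := h (a t) v hv
    rw [sum_mul, map_sum] at h1
    have h2 : ∀ s, W.trL (A.prod B) (W.pull (snd A B) (b s) * W.pull (fst A B) (g s) *
        (W.pull (fst A B) (a t) * W.pull (snd A B) v)) =
          if s = t then W.trL B (b s * v) else 0 := by
      intro s
      have h3 : W.pull (fst A B) (g s) * W.pull (fst A B) (a t) = W.pull (fst A B) (g s * a t) :=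
        ((W.pullA (fst A B)).map_mul _ _).symm
      rw [← mul_assoc, mul_assoc (W.pull (snd A B) (b s)), h3, trL_snd_fst_snd, hg]
      split_ifs <;> simp
    rw [sum_congr rfl fun s _ => h2 s, sum_ite_eq' univ t, if_pos (mem_univ _)] at h1
    exact h1
  refine Submodule.sum_mem _ fun s _ => ?_
  refine W.gr_induction A (p := fun y => W.pull (snd A B) (b s) * W.pull (fst A B) y ∈
    Submodule.span K {t | ∃ a, ∃ g ∈ G, t = W.pull (fst A B) a * W.pull (snd A B) g})
    (fun j y hy => ?_) ?_ ?_ (g s)
  · rw [pull_swap W hy (hG (hb s))]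
    exact Submodule.smul_mem _ _ (Submodule.subset_span ⟨y, b s, hb s, rfl⟩)
  · have h1 : W.pull (fst A B) 0 = 0 := map_zero (W.pullA (fst A B))
    rw [h1, mul_zero]
    exact Submodule.zero_mem _
  · intro x y hx hy
    have h1 : W.pull (fst A B) (x + y) = W.pull (fst A B) x + W.pull (fst A B) y :=
      map_add (W.pullA (fst A B)) x y
    rw [h1, mul_add]
    exact Submodule.add_mem _ hx hy

/-- L2b: the last slot of a determinant -/
theorem IsDeterminant.last {N b : ℕ} {G : Fin N → Submodule K (W.H X)}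
    {z : W.H (cart X (b + 1))} (hz : IsDeterminant W.toCohomologyData G z) :
    ∃ y, G y ≠ ⊥ ∧ ∀ v : Fin (b + 1) → W.H X,
      (∀ g ∈ G y, W.pairing X (v (Fin.last b)) g = 0) →
        W.pairing (cart X (b + 1)) z (extProd W.toCohomologyData 1 v) = 0 := by
  obtain ⟨r, f, e, a, ha, hf, hv⟩ := hz
  obtain ⟨⟨y, s⟩, hys⟩ := e.surjective (Fin.last b)
  have hmem : ∀ t, f y t ∈ G y := fun t => by
    rw [← (hf y).2]
    exact Submodule.subset_span ⟨t, rfl⟩
  refine ⟨y, fun h => ?_, fun v hvs => ?_⟩
  · have h1 := hmem s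
    rw [h, Submodule.mem_bot] at h1
    exact (hf y).1.ne_zero s h1
  · have h1 := hv fun q => v (e q)
    have h2 : (fun q => v (e (e.symm q))) = v := funext fun q => by rw [e.apply_symm_apply]
    rw [h2] at h1
    rw [h1]
    have h3 : Matrix.det (Matrix.of fun s t => W.pairing X (v (e ⟨y, s⟩)) (f y t)) = 0 := by
      refine Matrix.det_eq_zero_of_row_eq_zero s fun t => ?_
      rw [Matrix.of_apply, hys]
      exact hvs _ (hmem t)
    rw [prod_eq_zero (mem_univ y) h3, mul_zero]

/-! ### The first slot -/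

lemma trL_fst_snd_fst {A B : SmProjVar k} (b : W.H A) (c : W.H B) (v : W.H A) :
    W.trL (A.prod B) (W.pull (fst A B) b * W.pull (snd A B) c * W.pull (fst A B) v) =
      W.trL B c * W.trL A (b * v) := by
  refine W.gr_induction B (p := fun c => W.trL (A.prod B)
    (W.pull (fst A B) b * W.pull (snd A B) c * W.pull (fst A B) v) =
      W.trL B c * W.trL A (b * v)) (fun j c hc => ?_) ?_ ?_ c
  · refine W.gr_induction A (p := fun v => W.trL (A.prod B)
      (W.pull (fst A B) b * W.pull (snd A B) c * W.pull (fst A B) v) =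
      W.trL B c * W.trL A (b * v)) (fun i v hv => ?_) ?_ ?_ v
    · have h1 : W.pull (fst A B) b * W.pull (fst A B) v = W.pull (fst A B) (b * v) :=
        ((W.pullA (fst A B)).map_mul b v).symm
      have h2 : W.trL (A.prod B) (W.pull (fst A B) (b * v) * W.pull (snd A B) c) =
          W.trL A (b * v) * W.trL B c := W.tr_prod A B (b * v) c
      rw [mul_assoc, pull_swap W hv hc, mul_smul_comm, map_smul, ← mul_assoc, h1, h2, smul_eq_mul]
      by_cases hj : j = 2 * B.dim
      · rw [hj, mul_assoc, (even_two_mul _).neg_one_pow, one_mul, mul_comm]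
      · have h3 : W.trL B c = 0 := W.tr_eq_zero_of_gr B hj hc
        rw [h3, zero_mul, mul_zero, mul_zero]
    · have h1 : W.pull (fst A B) 0 = 0 := map_zero (W.pullA (fst A B))
      rw [h1, mul_zero, mul_zero, map_zero, map_zero, mul_zero]
    · intro x y hx hy
      have h1 : W.pull (fst A B) (x + y) = W.pull (fst A B) x + W.pull (fst A B) y :=
        map_add (W.pullA (fst A B)) x y
      rw [h1, mul_add, map_add, hx, hy, mul_add, map_add, mul_add]
  · have h1 : W.pull (snd A B) 0 = 0 := map_zero (W.pullA (snd A B))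
    rw [h1, mul_zero, zero_mul, map_zero, map_zero, zero_mul]
  · intro x y hx hy
    have h1 : W.pull (snd A B) (x + y) = W.pull (snd A B) x + W.pull (snd A B) y :=
      map_add (W.pullA (snd A B)) x y
    rw [h1, mul_add, add_mul, map_add, hx, hy, map_add, add_mul]

/-- expansion in the second slot -/
lemma exists_slot_expansion' {A B : SmProjVar k} {r : ℕ} {a g : Fin r → W.H B}
    (hg : ∀ x : W.H B, x = ∑ s, W.trL B (x * a s) • g s) (z : W.H (A.prod B)) :
    ∃ b : Fin r → W.H A, z = ∑ s, W.pull (fst A B) (b s) * W.pull (snd A B) (g s) := by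
  refine prod_induction' W (p := fun z => ∃ b : Fin r → W.H A,
    z = ∑ s, W.pull (fst A B) (b s) * W.pull (snd A B) (g s)) (fun a' b => ?_) ?_ z
  · refine ⟨fun s => W.trL B (b * a s) • a', ?_⟩
    have h1 : W.pull (snd A B) b = ∑ s, W.trL B (b * a s) • W.pull (snd A B) (g s) := by
      conv_lhs => rw [hg b]
      rw [pull_sum' W]
      refine sum_congr rfl fun s _ => ?_
      exact map_smul (W.pullA (snd A B)) _ _
    rw [h1, mul_sum]
    refine sum_congr rfl fun s _ => ?_
    have h2 : W.pull (fst A B) (W.trL B (b * a s) • a') =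
        W.trL B (b * a s) • W.pull (fst A B) a' := map_smul (W.pullA (fst A B)) _ _
    rw [h2, smul_mul_assoc, mul_smul_comm]
  · rintro z z' ⟨b, rfl⟩ ⟨b', rfl⟩
    refine ⟨fun s => b s + b' s, ?_⟩
    rw [← sum_add_distrib]
    refine sum_congr rfl fun s _ => ?_
    have h1 : W.pull (fst A B) (b s + b' s) = W.pull (fst A B) (b s) + W.pull (fst A B) (b' s) :=
      map_add (W.pullA (fst A B)) _ _
    rw [h1, add_mul]

/-- dual families, the first one a basis in the sense of an expansion formula -/
lemma exists_dual_expansion (B : SmProjVar k) : ∃ (r : ℕ) (a g : Fin r → W.H B),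
    (∀ x : W.H B, x = ∑ s, W.trL B (x * a s) • g s) ∧
      ∀ s t, W.trL B (g s * a t) = if s = t then 1 else 0 := by
  classical
  have hfin : Module.Finite K (W.H B) := (W.graded B).finite
  let a := Module.finBasis K (W.H B)
  obtain ⟨g, hg⟩ := exists_dual_family W (X := B) (f := a) a.linearIndependent
  refine ⟨_, a, g, fun x => ?_, hg⟩
  rw [← sub_eq_zero]
  refine (W.trace B).nondegenerate _ fun y => ?_
  change W.trL B ((x - ∑ s, W.trL B (x * a s) • g s) * y) = 0
  have h1 : LinearMap.comp (W.trL B)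
      (LinearMap.mulLeft K (x - ∑ s, W.trL B (x * a s) • g s)) = 0 := by
    refine a.ext fun t => ?_
    rw [LinearMap.comp_apply, LinearMap.mulLeft_apply, LinearMap.zero_apply, sub_mul, map_sub,
      sum_mul, map_sum]
    have h2 : ∀ s, W.trL B (W.trL B (x * a s) • g s * a t) =
        if s = t then W.trL B (x * a s) else 0 := by
      intro s
      rw [smul_mul_assoc, map_smul, hg]
      split_ifs <;> simp
    rw [sum_congr rfl fun s _ => h2 s, sum_ite_eq' univ t, if_pos (mem_univ _), sub_self]
  exact LinearMap.congr_fun h1 y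

/-- the orthogonal of a homogeneous subspace is generated by homogeneous classes -/
lemma orth_induction {A : SmProjVar k} {G : Submodule K (W.H A)} {i : ℕ} (hG : G ≤ W.gr A i)
    {p : W.H A → Prop} (h0 : p 0) (hadd : ∀ x y, p x → p y → p (x + y))
    (h : ∀ j, ∀ v ∈ W.gr A j, (∀ g ∈ G, W.trL A (g * v) = 0) → p v) {v : W.H A}
    (hv : ∀ g ∈ G, W.trL A (g * v) = 0) : p v := by
  -- split off the component of degree `j` with `i + j = 2 dim A`
  obtain ⟨v', v'', h1, h2, h3, h4⟩ : ∃ v' v'' : W.H A, (∃ j, i + j = 2 * A.dim ∧ v' ∈ W.gr A j ∨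
      v' = 0) ∧ p v'' ∧ (∀ g ∈ G, W.trL A (g * v'') = 0) ∧ v = v' + v'' := by
    clear hv
    refine W.gr_induction A (p := fun v => ∃ v' v'' : W.H A, (∃ j, i + j = 2 * A.dim ∧
      v' ∈ W.gr A j ∨ v' = 0) ∧ p v'' ∧ (∀ g ∈ G, W.trL A (g * v'') = 0) ∧ v = v' + v'')
      (fun j x hx => ?_) ?_ ?_ v
    · by_cases hj : i + j = 2 * A.dim
      · exact ⟨x, 0, ⟨j, Or.inl ⟨hj, hx⟩⟩, h0, fun g _ => by rw [mul_zero, map_zero],
          (add_zero x).symm⟩
      · have h5 : ∀ g ∈ G, W.trL A (g * x) = 0 := fun g hg => trL_gr W (hG hg) hx hj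
        exact ⟨0, x, ⟨0, Or.inr rfl⟩, h j x hx h5, h5, (zero_add x).symm⟩
    · exact ⟨0, 0, ⟨0, Or.inr rfl⟩, h0, fun g _ => by rw [mul_zero, map_zero],
        (zero_add 0).symm⟩
    · rintro x y ⟨x', x'', ⟨j, hx1⟩, hx2, hx3, rfl⟩ ⟨y', y'', ⟨j', hy1⟩, hy2, hy3, rfl⟩
      refine ⟨x' + y', x'' + y'', ?_, hadd _ _ hx2 hy2, fun g hg => ?_, by abel⟩
      · rcases hx1 with ⟨hj, hx1⟩ | rfl
        · rcases hy1 with ⟨hj', hy1⟩ | rfl
          · have : j' = j := by omega
            subst this
            exact ⟨j', Or.inl ⟨hj, Submodule.add_mem _ hx1 hy1⟩⟩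
          · rw [add_zero]
            exact ⟨j, Or.inl ⟨hj, hx1⟩⟩
        · rw [zero_add]
          exact ⟨j', hy1⟩
      · rw [mul_add, map_add, hx3 g hg, hy3 g hg, add_zero]
  rw [h4]
  refine hadd _ _ ?_ h2
  obtain ⟨j, ⟨_, hv'⟩ | rfl⟩ := h1
  · refine h j v' hv' fun g hg => ?_
    have h5 := hv g hg
    rwa [h4, mul_add, map_add, h3 g hg, add_zero] at h5
  · exact h0

/-- a class on `A × B` which is orthogonal to all `v × x` with `v` orthogonal to the subspace
`G` of `H ^ i(A)` is a sum of classes `g × x` with `g ∈ G` -/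
theorem mem_span_fst {A B : SmProjVar k} {γ : W.H (A.prod B)} {G : Submodule K (W.H A)} {i : ℕ}
    (hG : G ≤ W.gr A i)
    (h : ∀ (v : W.H A) (x : W.H B), (∀ g ∈ G, W.trL A (g * v) = 0) →
      W.trL (A.prod B) (γ * (W.pull (fst A B) v * W.pull (snd A B) x)) = 0) :
    γ ∈ Submodule.span K {t | ∃ g ∈ G, ∃ x, t = W.pull (fst A B) g * W.pull (snd A B) x} := by
  classical
  obtain ⟨r, a, g, hexp, hdual⟩ := exists_dual_expansion W B
  -- the other order of the slots
  have h' : ∀ (v : W.H A) (x : W.H B), (∀ g ∈ G, W.trL A (g * v) = 0) →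
      W.trL (A.prod B) (γ * (W.pull (snd A B) x * W.pull (fst A B) v)) = 0 := by
    intro v x hv
    refine orth_induction W hG (p := fun v =>
      W.trL (A.prod B) (γ * (W.pull (snd A B) x * W.pull (fst A B) v)) = 0) ?_ ?_ ?_ hv
    · have h1 : W.pull (fst A B) 0 = 0 := map_zero (W.pullA (fst A B))
      rw [h1, mul_zero, mul_zero, map_zero]
    · intro y z hy hz
      have h1 : W.pull (fst A B) (y + z) = W.pull (fst A B) y + W.pull (fst A B) z :=
        map_add (W.pullA (fst A B)) y z
      rw [h1, mul_add, mul_add, map_add, hy, hz, add_zero]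
    · intro j v hvj hv
      refine W.gr_induction B (p := fun x =>
        W.trL (A.prod B) (γ * (W.pull (snd A B) x * W.pull (fst A B) v)) = 0)
        (fun l x hx => ?_) ?_ ?_ x
      · rw [pull_swap W hvj hx, mul_smul_comm, map_smul, h v x hv, smul_zero]
      · have h1 : W.pull (snd A B) 0 = 0 := map_zero (W.pullA (snd A B))
        rw [h1, zero_mul, mul_zero, map_zero]
      · intro y z hy hz
        have h1 : W.pull (snd A B) (y + z) = W.pull (snd A B) y + W.pull (snd A B) z :=
          map_add (W.pullA (snd A B)) y z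
        rw [h1, add_mul, mul_add, map_add, hy, hz, add_zero]
  obtain ⟨b, rfl⟩ := exists_slot_expansion' W hexp γ
  have hb : ∀ t, b t ∈ G := by
    intro t
    refine mem_of_orth W fun v hv => ?_
    have h1 := h' v (a t) hv
    rw [sum_mul, map_sum] at h1
    have h2 : ∀ s, W.trL (A.prod B) (W.pull (fst A B) (b s) * W.pull (snd A B) (g s) *
        (W.pull (snd A B) (a t) * W.pull (fst A B) v)) =
          if s = t then W.trL A (b s * v) else 0 := by
      intro s
      have h3 : W.pull (snd A B) (g s) * W.pull (snd A B) (a t) = W.pull (snd A B) (g s * a t) :=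
        ((W.pullA (snd A B)).map_mul _ _).symm
      rw [← mul_assoc, mul_assoc (W.pull (fst A B) (b s)), h3, trL_fst_snd_fst, hdual]
      split_ifs <;> simp
    rw [sum_congr rfl fun s _ => h2 s, sum_ite_eq' univ t, if_pos (mem_univ _)] at h1
    exact h1
  exact Submodule.sum_mem _ fun s _ => Submodule.subset_span ⟨b s, hb s, g s, rfl⟩

end Pool.Agent.Helper11.BD
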