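import Mathlib
import Pool.Agent.Helper11.GN.L2

/-!
# Contraction of classes on products
-/

universe u v w

open CategoryTheory Finset

namespace Pool.Agent.Helper11.BD

open Pool.Agent.Helper10 hiding IsAlgAut parityPart
open SmProjVar Pool.Agent.Helper10.GIT

variable {k : Type u} [Field k] {K : Type v} [Field K] [CharZero K]
  (W : WeilCohomology.{u, v, w} k K) {F : Subfield K} {A B : SmProjVar k}

lemma pull_mul' {X Y : SmProjVar k} (f : X.toOver ⟶ Y.toOver) (x y : W.H Y) :
    W.pull f (x * y) = W.pull f x * W.pull f y := map_mul (W.pullA f) x y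

lemma tr_ext (X Y : SmProjVar k) (x : W.H X) (y : W.H Y) :
    W.trL (X.prod Y) (W.pull (fst X Y) x * W.pull (snd X Y) y) = W.trL X x * W.trL Y y :=
  W.tr_prod X Y x y

/-- the projection `(A × B) × B → B × B` -/
noncomputable def rr (A B : SmProjVar k) : ((A.prod B).prod B).toOver ⟶ (B.prod B).toOver :=
  lift (fst (A.prod B) B ≫ snd A B) (snd (A.prod B) B)

/-- the projection `(A × B) × B → A × B` which forgets the first factor `B` -/
noncomputable def qq (A B : SmProjVar k) : ((A.prod B).prod B).toOver ⟶ (A.prod B).toOver :=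
  lift (fst (A.prod B) B ≫ fst A B) (snd (A.prod B) B)

lemma pull_rr (x y : W.H B) : W.pull (rr A B) (W.pull (fst B B) x * W.pull (snd B B) y) =
    W.pull (fst (A.prod B) B) (W.pull (snd A B) x) * W.pull (snd (A.prod B) B) y := by
  rw [pull_mul', ← W.pull_comp, ← W.pull_comp, ← W.pull_comp]
  unfold rr
  rw [lift_fst, lift_snd]

lemma tr_rr (α : W.H A) (y : W.H (B.prod B)) :
    W.trL ((A.prod B).prod B) (W.pull (fst (A.prod B) B) (W.pull (fst A B) α) *
      W.pull (rr A B) y) = W.trL A α * W.trL (B.prod B) y := by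
  refine prod_induction' W (p := fun y => W.trL ((A.prod B).prod B)
    (W.pull (fst (A.prod B) B) (W.pull (fst A B) α) * W.pull (rr A B) y) =
      W.trL A α * W.trL (B.prod B) y) (fun a b => ?_) (fun a b ha hb => ?_) y
  · rw [pull_rr, ← mul_assoc, ← pull_mul', tr_ext, tr_ext, tr_ext, mul_assoc]
  · have h1 : W.pull (rr A B) (a + b) = W.pull (rr A B) a + W.pull (rr A B) b :=
      map_add (W.pullA (rr A B)) a b
    rw [h1, mul_add, map_add, map_add, ha, hb, mul_add]

/-- the class of the diagonal -/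
lemma exists_diag (F : Subfield K) (B : SmProjVar k) :
    ∃ δ ∈ cycleSpan W.toCohomologyData F (B.prod B), δ ∈ W.evK (B.prod B) ∧
      ∀ x y, W.trL (B.prod B) (δ * (W.pull (fst B B) x * W.pull (snd B B) y)) =
        W.trL B (x * y) := by
  obtain ⟨δ, hδ, h⟩ := push_mem_cycleSpan (F := F) W (lift (𝟙 B.toOver) (𝟙 B.toOver))
    (Ro.one_mem_cycleSpan W F B)
  refine ⟨δ, hδ, ?_, fun x y => ?_⟩
  · exact W.algClasses_le_evK _ (cycleSpan_le W _ hδ)
  · rw [h, one_mul]
    change W.trL B (W.pull (lift (𝟙 B.toOver) (𝟙 B.toOver)) _) = _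
    rw [pull_mul', ← W.pull_comp, ← W.pull_comp, lift_fst, lift_snd, W.pull_id, W.pull_id]

/-- the section `(a, b) ↦ ((a, b), b)` -/
noncomputable def ss (A B : SmProjVar k) : (A.prod B).toOver ⟶ ((A.prod B).prod B).toOver :=
  lift (𝟙 (A.prod B).toOver) (snd A B)

lemma pull_ss_fst (y : W.H (A.prod B)) : W.pull (ss A B) (W.pull (fst (A.prod B) B) y) = y := by
  rw [← W.pull_comp]
  unfold ss
  rw [lift_fst, W.pull_id]

lemma pull_ss_snd (y : W.H B) : W.pull (ss A B) (W.pull (snd (A.prod B) B) y) =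
    W.pull (snd A B) y := by
  rw [← W.pull_comp]
  unfold ss
  rw [lift_snd]

lemma pull_ss_qq (y : W.H (A.prod B)) : W.pull (ss A B) (W.pull (qq A B) y) = y := by
  refine prod_induction' W (p := fun y => W.pull (ss A B) (W.pull (qq A B) y) = y)
    (fun a b => ?_) (fun a b ha hb => ?_) y
  · rw [← W.pull_comp]
    unfold ss qq
    rw [pull_mul', ← W.pull_comp, ← W.pull_comp, Category.assoc, Category.assoc, lift_fst,
      lift_snd, ← Category.assoc, lift_fst, Category.id_comp, lift_snd]
  · have h1 : ∀ {X Y : SmProjVar k} (f : X.toOver ⟶ Y.toOver) (a b : W.H Y),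
        W.pull f (a + b) = W.pull f a + W.pull f b := fun f a b => map_add (W.pullA f) a b
    rw [h1, h1, ha, hb]

/-- restriction to the diagonal of the two last factors -/
lemma tr_mul_rr {δ : W.H (B.prod B)} (hδ : δ ∈ W.evK (B.prod B))
    (h : ∀ x y, W.trL (B.prod B) (δ * (W.pull (fst B B) x * W.pull (snd B B) y)) =
      W.trL B (x * y)) (t : W.H ((A.prod B).prod B)) :
    W.trL ((A.prod B).prod B) (t * W.pull (rr A B) δ) =
      W.trL (A.prod B) (W.pull (ss A B) t) := by
  have hadd : ∀ {X Y : SmProjVar k} (f : X.toOver ⟶ Y.toOver) (a b : W.H Y),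
        W.pull f (a + b) = W.pull f a + W.pull f b := fun f a b => map_add (W.pullA f) a b
  refine prod_induction' W (p := fun t => W.trL ((A.prod B).prod B) (t * W.pull (rr A B) δ) =
      W.trL (A.prod B) (W.pull (ss A B) t)) (fun u v => ?_) (fun a b ha hb => ?_) t
  · refine prod_induction' W (p := fun u => W.trL ((A.prod B).prod B)
      (W.pull (fst (A.prod B) B) u * W.pull (snd (A.prod B) B) v * W.pull (rr A B) δ) =
      W.trL (A.prod B) (W.pull (ss A B) (W.pull (fst (A.prod B) B) u *
        W.pull (snd (A.prod B) B) v))) (fun α β => ?_) (fun a b ha hb => ?_) u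
    · rw [pull_mul', mul_assoc (W.pull (fst (A.prod B) B) (W.pull (fst A B) α)), ← pull_rr,
        mul_assoc, ← pull_mul', tr_rr]
      have h1 : W.pull (fst B B) β * W.pull (snd B B) v * δ =
          δ * (W.pull (fst B B) β * W.pull (snd B B) v) := (W.evK_comm _ _ _ hδ).symm
      rw [h1, h, pull_rr, pull_mul', pull_ss_fst, pull_mul', pull_ss_fst, pull_ss_snd, ← pull_mul',
        tr_ext]
    · rw [hadd, add_mul, add_mul, map_add, ha, hb, hadd, map_add]
  · rw [add_mul, map_add, ha, hb, hadd, map_add]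

/-- a class with a slot in `G` is orthogonal to the products with a slot orthogonal to `G` -/
lemma tr_contract {z : W.H (A.prod B)} {i : ℕ} {G : Submodule K (W.H B)} (hG : G ≤ W.gr B i)
    (hzG : z ∈ Submodule.span K {t | ∃ a, ∃ g ∈ G, t = W.pull (fst A B) a * W.pull (snd A B) g})
    {v : W.H B} (hv : ∀ g ∈ G, W.trL B (g * v) = 0) (α : W.H A) :
    W.trL (A.prod B) (z * (W.pull (fst A B) α * W.pull (snd A B) v)) = 0 := by
  have hadd : ∀ {X Y : SmProjVar k} (f : X.toOver ⟶ Y.toOver) (a b : W.H Y),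
        W.pull f (a + b) = W.pull f a + W.pull f b := fun f a b => map_add (W.pullA f) a b
  refine W.gr_induction A (p := fun α => W.trL (A.prod B) (z * (W.pull (fst A B) α *
    W.pull (snd A B) v)) = 0) (fun j α hα => ?_) ?_ (fun a b ha hb => ?_) α
  · induction hzG using Submodule.span_induction with
    | mem z hz =>
      obtain ⟨a, g, hg, rfl⟩ := hz
      have h1 : W.pull (snd A B) g * W.pull (fst A B) α =
          (-1 : K) ^ (i * j) • (W.pull (fst A B) α * W.pull (snd A B) g) :=
        (W.graded _).comm i j _ _ (pull_gr W _ (hG hg)) (pull_gr W _ hα)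
      have h2 : W.pull (fst A B) a * W.pull (snd A B) g * (W.pull (fst A B) α *
          W.pull (snd A B) v) = (-1 : K) ^ (i * j) • (W.pull (fst A B) (a * α) *
            W.pull (snd A B) (g * v)) := by
        rw [mul_assoc, ← mul_assoc (W.pull (snd A B) g), h1, smul_mul_assoc, mul_smul_comm,
          pull_mul', pull_mul']
        simp only [mul_assoc]
      rw [h2, map_smul, tr_ext, hv g hg, mul_zero, smul_zero]
    | zero => rw [zero_mul, map_zero]
    | add x y _ _ hx hy => rw [add_mul, map_add, hx, hy, add_zero]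
    | smul c x _ hx => rw [smul_mul_assoc, map_smul, hx, smul_zero]
  · have h0 : W.pull (fst A B) 0 = 0 := map_zero (W.pullA (fst A B))
    rw [h0, zero_mul, mul_zero, map_zero]
  · rw [hadd, add_mul, mul_add, map_add, ha, hb, add_zero]

/-- moving a class past odd classes -/
lemma exists_twist {i : ℕ} {G : Submodule K (W.H B)} (hG : G ≤ W.gr B i) {v : W.H B}
    (hv : ∀ g ∈ G, W.trL B (g * v) = 0) :
    ∃ v' : W.H B, (∀ g ∈ G, W.trL B (g * v') = 0) ∧
      ∀ {T : SmProjVar k} (f : T.toOver ⟶ B.toOver) (y : W.H T), y ∈ W.odK T →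
        y * W.pull f v = W.pull f v' * y := by
  obtain ⟨v₀, hv₀, v₁, hv₁, rfl⟩ := exists_parity W B v
  refine ⟨v₀ - v₁, fun g hg => ?_, fun {T} f y hy => ?_⟩
  · have h1 := hv g hg
    rw [mul_add, map_add] at h1
    rw [mul_sub, map_sub]
    by_cases hi : Even i
    · have h2 : W.trL B (g * v₁) = 0 :=
        trL_odK W B (W.evK_mul_odK _ _ _ (W.gr_le_evK B hi (hG hg)) hv₁)
      rw [h2, add_zero] at h1
      rw [h1, h2, sub_zero]
    · have h2 : W.trL B (g * v₀) = 0 :=
        trL_odK W B (odK_mul_evK W _ (W.gr_le_odK B hi (hG hg)) hv₀)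
      rw [h2, zero_add] at h1
      rw [h1, h2, sub_zero]
  · have h1 : W.pull f (v₀ + v₁) = W.pullA f v₀ + W.pullA f v₁ := map_add (W.pullA f) _ _
    have h2 : W.pull f (v₀ - v₁) = W.pullA f v₀ - W.pullA f v₁ := map_sub (W.pullA f) _ _
    rw [h1, h2, mul_add, sub_mul, ← W.evK_comm _ _ y (W.pull_evK f _ hv₀),
      W.odK_anti _ y _ hy (W.pull_odK f _ hv₁), sub_eq_add_neg]

/-- contraction of classes on products -/
theorem exists_contraction_slot {z a : W.H (A.prod B)}
    {G : Submodule K (W.H B)} {i : ℕ} (hG : G ≤ W.gr B i)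
    (hz : z ∈ cycleSpan W.toCohomologyData F (A.prod B))
    (ha : a ∈ cycleSpan W.toCohomologyData F (A.prod B))
    (hzG : z ∈ Submodule.span K {t | ∃ a, ∃ g ∈ G, t = W.pull (fst A B) a * W.pull (snd A B) g})
    (hza : W.trL (A.prod B) (z * a) ≠ 0) :
    ∃ γ ∈ cycleSpan W.toCohomologyData F (B.prod B), γ ≠ 0 ∧
      γ ∈ Submodule.span K {t | ∃ g ∈ G, ∃ x, t = W.pull (fst B B) g * W.pull (snd B B) x} := by
  have hadd : ∀ {X Y : SmProjVar k} (f : X.toOver ⟶ Y.toOver) (a b : W.H Y),
        W.pull f (a + b) = W.pull f a + W.pull f b := fun f a b => map_add (W.pullA f) a b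
  obtain ⟨δ, hδ, hδe, hδt⟩ := exists_diag W F B
  obtain ⟨γ, hγ, h⟩ := push_mem_cycleSpan (F := F) W (rr A B) (x := W.pullA (fst (A.prod B) B) z *
    W.pullA (qq A B) a) (mul_mem_cycleSpan W _ (pull_mem_cycleSpan W _ hz)
      (pull_mem_cycleSpan W _ ha))
  refine ⟨γ, hγ, ?_, ?_⟩
  · rintro rfl
    have h1 := h δ
    rw [zero_mul, map_zero] at h1
    have h2 : W.trL ((A.prod B).prod B) (W.pull (fst (A.prod B) B) z * W.pull (qq A B) a *
        W.pull (rr A B) δ) = 0 := h1.symm
    rw [tr_mul_rr W hδe hδt, pull_mul', pull_ss_fst, pull_ss_qq] at h2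
    exact hza h2
  · refine mem_span_fst W hG fun v x hv => ?_
    rw [h]
    change W.trL ((A.prod B).prod B) (W.pull (fst (A.prod B) B) z * W.pull (qq A B) a *
      W.pull (rr A B) (W.pull (fst B B) v * W.pull (snd B B) x)) = 0
    rw [pull_rr]
    obtain ⟨v', hv', htw⟩ := exists_twist W hG hv
    have hqq : ∀ α β, W.pull (qq A B) (W.pull (fst A B) α * W.pull (snd A B) β) =
        W.pull (fst (A.prod B) B) (W.pull (fst A B) α) * W.pull (snd (A.prod B) B) β := by
      intro α β
      rw [pull_mul', ← W.pull_comp, ← W.pull_comp, ← W.pull_comp]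
      unfold qq
      rw [lift_fst, lift_snd]
    refine prod_induction' W (p := fun a => W.trL ((A.prod B).prod B)
      (W.pull (fst (A.prod B) B) z * W.pull (qq A B) a *
        (W.pull (fst (A.prod B) B) (W.pull (snd A B) v) * W.pull (snd (A.prod B) B) x)) = 0)
        (fun α β => ?_) (fun a b ha hb => ?_) a
    · rw [hqq]
      obtain ⟨β₀, hβ₀, β₁, hβ₁, rfl⟩ := exists_parity W B β
      have key : ∀ (β w : W.H B), (∀ g ∈ G, W.trL B (g * w) = 0) →
          W.pull (snd (A.prod B) B) β * W.pull (fst (A.prod B) B) (W.pull (snd A B) v) =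
            W.pull (fst (A.prod B) B) (W.pull (snd A B) w) * W.pull (snd (A.prod B) B) β →
          W.trL ((A.prod B).prod B) (W.pull (fst (A.prod B) B) z *
            (W.pull (fst (A.prod B) B) (W.pull (fst A B) α) * W.pull (snd (A.prod B) B) β) *
            (W.pull (fst (A.prod B) B) (W.pull (snd A B) v) * W.pull (snd (A.prod B) B) x)) =
              0 := by
        intro β w hw hcomm
        have h1 : W.pull (fst (A.prod B) B) z *
            (W.pull (fst (A.prod B) B) (W.pull (fst A B) α) * W.pull (snd (A.prod B) B) β) *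
            (W.pull (fst (A.prod B) B) (W.pull (snd A B) v) * W.pull (snd (A.prod B) B) x) =
            W.pull (fst (A.prod B) B) (z * (W.pull (fst A B) α * W.pull (snd A B) w)) *
              W.pull (snd (A.prod B) B) (β * x) := by
          rw [pull_mul', pull_mul', pull_mul']
          calc _ = W.pull (fst (A.prod B) B) z * W.pull (fst (A.prod B) B) (W.pull (fst A B) α) *
                (W.pull (snd (A.prod B) B) β *
                  W.pull (fst (A.prod B) B) (W.pull (snd A B) v)) *
                W.pull (snd (A.prod B) B) x := by simp only [mul_assoc]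
            _ = _ := by rw [hcomm]; simp only [mul_assoc]
        rw [h1, tr_ext, tr_contract W hG hzG hw, zero_mul]
      have h0 := key β₀ v hv (W.evK_comm _ _ _ (W.pull_evK _ _ hβ₀))
      have h1 := key β₁ v' hv' (by
        rw [← W.pull_comp, ← W.pull_comp]
        exact htw _ _ (W.pull_odK _ _ hβ₁))
      rw [hadd, mul_add, mul_add, add_mul, map_add, h0, h1, add_zero]
    · rw [hadd, mul_add, add_mul, map_add, ha, hb, add_zero]

end Pool.Agent.Helper11.BD
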