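import Mathlib
import Pool.Agent.Helper11.GN.L1
import Pool.Agent.Helper11.GN.L3
import Pool.Agent.Helper11.BD.Aniso

/-!
# The standard conjecture D and specialisations
-/

universe u v w u' w'

open CategoryTheory Finset

namespace Pool.Agent.Helper11.BD

open Pool.Agent.Helper10 hiding IsAlgAut parityPart
open SmProjVar Pool.Agent.Helper10.GIT
open Pool.Agent.Helper11.Obs (extProd wordClass prodVar prodFst prodProj IsNumTrivial)

variable {k : Type u} [Field k] {K : Type v} [Field K] [CharZero K]
  (W : WeilCohomology.{u, v, w} k K) {F : Subfield K} {X : SmProjVar k}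
  {k' : Type u'} [Field k'] (W' : WeilCohomology.{u', v, w'} k' K) {X' : SmProjVar k'}
  {d : X.Z 1} {d' : X'.Z 1} {φ : W.H X → W'.H X'}

namespace IsSpecialization

variable {W W'} (hφ : IsSpecialization W.toCohomologyData W'.toCohomologyData X d X' d' φ)

include hφ

/-- the isomorphism as a linear map -/
def lin : W.H X →ₗ[K] W'.H X' where
  toFun := φ
  map_add' := hφ.map_add
  map_smul' := hφ.map_smul

lemma map_zero' : φ 0 = 0 := map_zero hφ.lin

lemma map_sum' {ι : Type*} (s : Finset ι) (x : ι → W.H X) :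
    φ (∑ i ∈ s, x i) = ∑ i ∈ s, φ (x i) := map_sum hφ.lin x s

lemma trL_eq (x : W.H X) : W'.trL X' (φ x) = W.trL X x := hφ.tr x

lemma pairing_eq (x y : W.H X) : W'.pairing X' (φ x) (φ y) = W.pairing X x y := by
  change W'.trL X' (φ x * φ y) = W.trL X (x * y)
  rw [← hφ.map_mul, hφ.trL_eq]

lemma map_pow' (x : W.H X) (r : ℕ) : φ (x ^ r) = φ x ^ r := by
  induction r with
  | zero => rw [pow_zero, pow_zero, hφ.map_one]
  | succ r ih => rw [pow_succ, pow_succ, hφ.map_mul, ih]

lemma map_lef (r : ℕ) (x : W.H X) : φ (W.lef X d r x) = W'.lef X' d' r (φ x) := by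
  change φ (W.cy X 1 d ^ r * x) = W'.cy X' 1 d' ^ r * φ x
  rw [hφ.map_mul, hφ.map_pow', hφ.div]

/-- the inverse preserves the degrees -/
lemma mem_of_map_mem {i : ℕ} {x : W.H X} (hx : φ x ∈ W'.gr X' i) : x ∈ W.gr X i := by
  classical
  have hx0 : x ∈ ⨆ i, W.gr X i := by rw [W.iSup_gr]; trivial
  rw [Submodule.mem_iSup_iff_exists_dfinsupp'] at hx0
  obtain ⟨f, rfl⟩ := hx0
  have key : ∀ j, j ≠ i → (f j : W.H X) = 0 := by
    intro j hj
    by_cases hj2 : 2 * X.dim < j
    · exact (Submodule.mem_bot K).mp (by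
        rw [← (W.graded X).eq_bot j hj2]
        exact (f j).2)
    · refine eq_zero_of_gr W (i := j) (j := 2 * X.dim - j) (by omega) (f j).2 fun w hw => ?_
      have h1 : W.trL X ((f.sum fun _ xi => (xi : W.H X)) * w) = W.trL X ((f j : W.H X) * w) := by
        rw [DFinsupp.sum, Finset.sum_mul, _root_.map_sum, Finset.sum_eq_single j]
        · intro l _ hl
          exact trL_gr W (f l).2 hw (by omega)
        · intro hjs
          rw [DFinsupp.notMem_support_iff] at hjs
          rw [hjs, ZeroMemClass.coe_zero, zero_mul, _root_.map_zero]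
      rw [← h1, ← hφ.trL_eq, hφ.map_mul]
      exact trL_gr W' hx (hφ.map_mem _ w hw) (by rw [hφ.dim_eq]; omega)
  have h2 : (f.sum fun _ xi => (xi : W.H X)) = (f i : W.H X) := by
    rw [DFinsupp.sum, Finset.sum_eq_single i]
    · intro l _ hl
      exact key l hl
    · intro hjs
      rw [DFinsupp.notMem_support_iff] at hjs
      rw [hjs, ZeroMemClass.coe_zero]
  rw [h2]
  exact (f i).2

/-- the hard Lefschetz theorem -/
lemma hardLefschetz (hd : HardLefschetz W.toCohomologyData X d) :
    HardLefschetz W'.toCohomologyData X' d' := by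
  intro i r hir
  have hir' : i + r = X.dim := by rw [← hφ.dim_eq]; exact hir
  refine ⟨fun x hx hx0 => ?_, fun y hy => ?_⟩
  · obtain ⟨x, rfl⟩ := hφ.bijective.2 x
    have h1 : W.lef X d r x = 0 := by
      refine hφ.bijective.1 ?_
      rw [hφ.map_lef, hφ.map_zero']
      exact hx0
    rw [(hd i r hir').1 x (hφ.mem_of_map_mem hx) h1, hφ.map_zero']
  · obtain ⟨y, rfl⟩ := hφ.bijective.2 y
    obtain ⟨x, hx, rfl⟩ := (hd i r hir').2 y (hφ.mem_of_map_mem hy)
    exact ⟨φ x, hφ.map_mem i x hx, (hφ.map_lef r x).symm⟩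

/-- the specialisation of combinations of cycle classes -/
lemma exists_spec {b : ℕ} {z : W.H (cart X b)}
    (hz : z ∈ cycleSpan W.toCohomologyData F (cart X b)) :
    ∃ z' ∈ cycleSpan W'.toCohomologyData F (cart X' b), ∀ x : Fin b → W.H X,
      W'.trL (cart X' b) (z' * (extProd W'.toCohomologyData (A := pt k') 1 (fun i => φ (x i)) :
        W'.H (cart X' b))) =
      W.trL (cart X b) (z * (extProd W.toCohomologyData (A := pt k) 1 x : W.H (cart X b))) := by
  unfold cycleSpan at hz
  induction hz using Submodule.span_induction with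
  | mem z hz =>
    obtain ⟨j, c, rfl⟩ := hz
    obtain ⟨c', h⟩ := hφ.cycle b j c
    exact ⟨_, cy_mem_cycleSpan W' F _ j c', h⟩
  | zero => exact ⟨0, Submodule.zero_mem _, fun x => by
      rw [zero_mul, zero_mul, map_zero, map_zero]⟩
  | add a b _ _ ha hb =>
    obtain ⟨a', ha', h1⟩ := ha
    obtain ⟨b', hb', h2⟩ := hb
    exact ⟨a' + b', Submodule.add_mem _ ha' hb', fun x => by
      rw [add_mul, add_mul, _root_.map_add, _root_.map_add, h1, h2]⟩
  | smul c x _ hx =>
    obtain ⟨x', hx', h⟩ := hx
    exact ⟨c • x', Submodule.smul_mem _ _ hx', fun x => by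
      have h1 : c • x' = (c : K) • x' := rfl
      have h2 : ∀ y : W.H (cart X b), c • y = (c : K) • y := fun _ => rfl
      rw [h1, h2, smul_mul_assoc, smul_mul_assoc, _root_.map_smul, _root_.map_smul, h]⟩

end IsSpecialization

/-- D for the powers implies the Lefschetz standard conjecture -/
lemma lefschetzStandard_of_standardD (hd : HardLefschetz W.toCohomologyData X d)
    (hD : ∀ b, W.StandardD (cart X b)) : LefschetzStandard W.toCohomologyData F X d := by
  refine ((lefschetz_tfae W (F := F) hd).out 0 4).mpr fun i m b z _ hzF hz hdet => ?_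
  exact IsDeterminant.ne_zero W hdet (eq_zero_of_isNumTrivial W (hD b) hz)

/-- a nonzero class is not orthogonal to all cycles if D holds -/
lemma exists_cycle_of_ne_zero (hD : W.StandardD X) {z : W.H X}
    (hz : z ∈ cycleSpan W.toCohomologyData F X) (h0 : z ≠ 0) :
    ∃ a ∈ cycleSpan W.toCohomologyData F X, W.trL X (z * a) ≠ 0 := by
  by_contra hcon
  push Not at hcon
  refine h0 (eq_zero_of_isNumTrivial W hD ⟨cycleSpan_le W X hz, fun a ha => ?_⟩)
  change W.trL X (z * a) = 0
  unfold CohomologyData.algClasses at ha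
  induction ha using Submodule.span_induction with
  | mem a ha =>
    obtain ⟨j, c, rfl⟩ := ha
    exact hcon _ (cy_mem_cycleSpan W F X j c)
  | zero => rw [mul_zero, map_zero]
  | add a b _ _ ha hb => rw [mul_add, map_add, ha, hb, add_zero]
  | smul c a _ ha => rw [mul_smul_comm, map_smul, ha, smul_zero]

/-- **D for the powers of a specialisation and D for the powers of `X`.** -/
theorem standardD_of_specialization (hd : HardLefschetz W.toCohomologyData X d)
    (hφ : IsSpecialization W.toCohomologyData W'.toCohomologyData X d X' d' φ)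
    (hD : ∀ b, W'.StandardD (cart X' b)) {e : (X'.prod X').Z 1}
    (he : W'.cy (X'.prod X') 1 e =
      W'.pull (fst X' X') (W'.cy X' 1 d') + W'.pull (snd X' X') (W'.cy X' 1 d'))
    (hH : W'.HodgeType (X'.prod X') e) :
    (∀ b, W.StandardD (cart X b)) ↔ LefschetzStandard W.toCohomologyData F X d := by
  refine ⟨fun h => lefschetzStandard_of_standardD W hd h, fun hB => ?_⟩
  have hB0 : LefschetzStandard W.toCohomologyData (ratField K) X d :=
    (lefschetzStandard_iff W hd (ratField_le F)).mpr hB
  have hd' := hφ.hardLefschetz hd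
  have hB' : LefschetzStandard W'.toCohomologyData (ratField K) X' d' :=
    lefschetzStandard_of_standardD W' hd' hD
  refine (standardD_iff_isotropic.{u, v, w, v} W (F := ratField K) hd).mpr ⟨hB0, ?_⟩
  rintro N G hG ⟨b, z, hzF, hznt, hdet⟩
  rcases b with _ | b
  · -- a class on a point
    obtain ⟨rk, f, e', a, ha, hf, h⟩ := hdet
    have h0 : ∀ q : Σ y, Fin (rk y), False := fun q => (e' q).elim0
    have h1 := h fun q => (h0 q).elim
    have h2 : ∀ y, Matrix.det (Matrix.of fun s t => W.pairing X
        ((fun q => (h0 q).elim : (Σ y, Fin (rk y)) → W.H X) ⟨y, s⟩) (f y t)) = 1 := by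
      intro y
      have : IsEmpty (Fin (rk y)) := ⟨fun s => h0 ⟨y, s⟩⟩
      exact Matrix.det_isEmpty
    rw [prod_congr rfl fun y _ => h2 y, prod_const_one, mul_one] at h1
    refine ha (h1.symm.trans (hznt.2 _ ?_))
    have h3 : (extProd W.toCohomologyData (A := pt k) 1
        (fun q : Fin 0 => (fun q => (h0 q).elim : (Σ y, Fin (rk y)) → W.H X) (e'.symm q)) :
        W.H (cart X 0)) = 1 := by
      change W.pullA (𝟙 (pt k).toOver) 1 * (1 : W.H (pt k)) = 1
      rw [map_one, mul_one]
    rw [h3]
    exact cycleSpan_le W _ (Ro.one_mem_cycleSpan W F _)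
  · obtain ⟨y, hy0, hlast⟩ := hdet.last W
    obtain ⟨i, r, hir, hGi, hiso, hst, -⟩ := hG y
    obtain ⟨z', hz', hspec⟩ := hφ.exists_spec hzF
    have hz0 : z' ≠ 0 := by
      rintro rfl
      refine hdet.ne_zero W (eq_of_extProd W fun v => ?_)
      rw [← hspec v, zero_mul, map_zero, zero_mul, map_zero]
    obtain ⟨a', ha', hza⟩ := exists_cycle_of_ne_zero W' (hD (b + 1)) hz' hz0
    have hG' : (G y).map hφ.lin ≤ W'.gr X' i := by
      rintro _ ⟨g, hg, rfl⟩
      exact hφ.map_mem i g (hGi hg)
    have hzG : z' ∈ Submodule.span K {t | ∃ a, ∃ g ∈ (G y).map hφ.lin,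
        t = W'.pull (fst (cart X' b) X') a * W'.pull (snd (cart X' b) X') g} := by
      refine mem_span_slot W' hG' fun a v hv => ?_
      have ha : a ∈ Submodule.span K (Set.range fun v : Fin b → W'.H X' =>
        (extProd W'.toCohomologyData (A := pt k') 1 v : W'.H (cart X' b))) := by
        rw [span_extProd]; trivial
      induction ha using Submodule.span_induction with
      | mem a ha =>
        obtain ⟨x', rfl⟩ := ha
        choose x hx using fun i => hφ.bijective.2 (x' i)
        obtain ⟨v, rfl⟩ := hφ.bijective.2 v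
        have h1 := hspec (Fin.snoc x v : Fin (b + 1) → W.H X)
        have h2 : (fun i => φ ((Fin.snoc x v : Fin (b + 1) → W.H X) i)) =
            (Fin.snoc x' (φ v) : Fin (b + 1) → W'.H X') := by
          funext i
          refine Fin.lastCases ?_ (fun i => ?_) i
          · rw [Fin.snoc_last, Fin.snoc_last]
          · rw [Fin.snoc_castSucc, Fin.snoc_castSucc, hx]
        rw [h2] at h1
        have h3 : (extProd W'.toCohomologyData (A := pt k') 1
            (Fin.snoc x' (φ v) : Fin (b + 1) → W'.H X') : W'.H (cart X' (b + 1))) =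
            W'.pull (fst (cart X' b) X') (extProd W'.toCohomologyData (A := pt k') 1 x') *
              W'.pull (snd (cart X' b) X') (φ v) := by
          rw [Can.extProd_succ, Fin.snoc_last]
          congr 3
          funext i
          rw [Fin.snoc_castSucc]
        rw [h3] at h1
        refine Eq.trans h1 (hlast _ fun g hg => ?_)
        rw [Fin.snoc_last]
        have h4 := hv _ ⟨g, hg, rfl⟩
        change W'.trL X' (φ g * φ v) = 0 at h4
        rw [← hφ.map_mul, hφ.trL_eq, trL_mul_par W _ (gr_le_par W X i (hGi hg))] at h4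
        rcases mul_eq_zero.mp h4 with h5 | h5
        · exfalso
          revert h5
          split_ifs <;> simp
        · exact h5
      | zero =>
        have h0 : W'.pull (fst (cart X' b) X') 0 = 0 := map_zero (W'.pullA _)
        rw [h0, zero_mul, mul_zero, map_zero]
      | add a₁ a₂ _ _ h1 h2 =>
        have h0 : W'.pull (fst (cart X' b) X') (a₁ + a₂) = W'.pull (fst (cart X' b) X') a₁ +
          W'.pull (fst (cart X' b) X') a₂ := map_add (W'.pullA _) _ _
        rw [h0, add_mul, mul_add, map_add, h1, h2, add_zero]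
      | smul c a₁ _ h1 =>
        have h0 : W'.pull (fst (cart X' b) X') (c • a₁) = c • W'.pull (fst (cart X' b) X') a₁ :=
          map_smul (W'.pullA _) _ _
        rw [h0, smul_mul_assoc, mul_smul_comm, map_smul, h1, smul_zero]
    obtain ⟨γ, hγ, hγ0, hγG⟩ := exists_contraction_slot W' hG' hz' ha' hzG hza
    refine hγ0 (eq_zero_of_isotropic_slot W' hd' hB' he hH (by rw [hφ.dim_eq]; exact hir) hG'
      ?_ ?_ hγ hγG)
    · rintro _ ⟨x, hx, rfl⟩ _ ⟨y', hy', rfl⟩
      change W'.pairing X' (φ x) (W'.lef X' d' r (φ y')) = 0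
      rw [← hφ.map_lef, hφ.pairing_eq]
      exact hiso x hx y' hy'
    · obtain ⟨lam, hlam, hdec⟩ := exists_lefDec W hd hB0 hir
      rintro _ ⟨x, hx, rfl⟩
      have h := hdec x (hGi hx)
      refine ⟨fun j => φ (lam j x), ⟨fun j hj => hφ.map_mem _ _ (h.mem j hj), fun j hj => ?_,
        fun j => ?_, ?_⟩, fun j => ?_⟩
      · rw [h.zero j hj, hφ.map_zero']
      · rw [← hφ.map_lef, h.prim j, hφ.map_zero']
      · change φ x = _
        conv_lhs => rw [h.sum]
        rw [hφ.map_sum']
        exact sum_congr rfl fun j _ => hφ.map_lef j _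
      · refine ⟨W.lef X d j (lam j x), ?_, hφ.map_lef j _⟩
        refine hst (fun x => W.lef X d j (lam j x)) ?_ (fun x hx => ?_) x hx
        · exact Ro.IsMapOver.isAlgebraicMap W (Ro.isMapOver_comp W (hlam j)
            (isMapOver_mul W (pow_mem_cycleSpan W (cy_mem_cycleSpan W _ X 1 d) j)))
        · by_cases hj : 2 * j ≤ i
          · have h1 := lef_mem W d j ((hdec x hx).mem j hj)
            have h2 : i - 2 * j + 2 * j = i := by omega
            rwa [h2] at h1
          · have h1 : lam j x = 0 := (hdec x hx).zero j (by omega)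
            change W.lef X d j (lam j x) ∈ W.gr X i
            rw [h1, lef_zero]
            exact Submodule.zero_mem _

end Pool.Agent.Helper11.BD
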